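import Pool.Agent.TH682.WC.Main

/-!
# Classes of promise problems
-/

set_option autoImplicit false
set_option linter.unusedSectionVars false

namespace Pool.Agent.TH682.WC

open Pool.Agent.NPC Pool.Agent.H620R2.Gauge Pool.Agent.W938.Hyb
open Pool.Agent.H628R3.RO (randomOracle)
open Pool.Agent.W938.QX (mix)

/-- Polynomials are bounded by powers. -/
lemma poly_pow (p : Polynomial ℕ) : ∃ d : ℕ, ∀ n, p.eval n ≤ (n + 2) ^ d := by
  induction p using Polynomial.induction_on' with
  | add p q hp hq =>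
    obtain ⟨d, hd⟩ := hp
    obtain ⟨e, he⟩ := hq
    refine ⟨d + e + 1, fun n => ?_⟩
    have h1 : (n + 2) ^ d ≤ (n + 2) ^ (d + e) := Nat.pow_le_pow_right (by omega) (by omega)
    have h2 : (n + 2) ^ e ≤ (n + 2) ^ (d + e) := Nat.pow_le_pow_right (by omega) (by omega)
    have h3 := hd n
    have h4 := he n
    rw [Polynomial.eval_add, pow_succ]
    nlinarith [Nat.zero_le ((n + 2) ^ (d + e) * n)]
  | monomial m a =>
    refine ⟨a + m, fun n => ?_⟩
    rw [Polynomial.eval_monomial, pow_add]
    have h1 : a ≤ (n + 2) ^ a :=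
      (Nat.lt_two_pow_self (n := a)).le.trans (Nat.pow_le_pow_left (by omega) a)
    have h2 : n ^ m ≤ (n + 2) ^ m := Nat.pow_le_pow_left (by omega) m
    exact Nat.mul_le_mul h1 h2

lemma circ_bound {O : Oracle} {F : List Bool → List Bool} {C : List Bool → List Unit × List Gate}
    (hF : IsFP O F) (hC : PolyTime (fun z => bits (C z))) (k : List Unit) :
    ∃ d : ℕ, ∀ x : List Bool, (bits (C (F x), k)).length + 2 ≤ (x.length + 2) ^ d := by
  obtain ⟨M, hM⟩ := hF
  obtain ⟨b, hb⟩ := A2.out_bound M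
  obtain ⟨q, hq⟩ := (Pool.Agent.H622R2.poly_of_polyTime hC).sz_le
  obtain ⟨d, hd⟩ := poly_pow (q.comp (Polynomial.C 4 * b + 1) + Polynomial.C (sz k + 3))
  refine ⟨d, fun x => ?_⟩
  refine le_trans ?_ (hd x.length)
  have h1 : (bits (C (F x), k)).length = sz (C (F x)) + sz k + 1 := by rw [bits_length, sz_pair]
  have h2 : sz (C (F x)) ≤ (q.comp (Polynomial.C 4 * b + 1)).eval x.length := by
    have h3 := length_lt_sz (bits (C (F x)))
    rw [bits_length] at h3
    refine h3.le.trans ((hq _).trans ?_)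
    rw [Polynomial.eval_comp]
    apply eval_mono
    have h4 := sz_listBool_le (F x)
    have h5 := hb O x (F x) (hM x)
    simp only [Polynomial.eval_add, Polynomial.eval_mul, Polynomial.eval_C, Polynomial.eval_one]
    omega
  rw [Polynomial.eval_add, Polynomial.eval_C, h1]
  omega

lemma poly_bitsF {α β : Type} [TEnc α] [TEnc β] {f : α → β} (hf : NPC.Poly f) :
    NPC.Poly (fun a => bits (f a)) := by
  have h : NPC.Poly (fun b : β => bits b) := by
    obtain ⟨c, p, h⟩ := PC.rawIn
    exact ⟨c, p, fun a => h (bits a)⟩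
  exact h.comp hf

lemma poly_of_bits {C : List Bool → List Unit × List Gate} (hC : PolyTime (fun z => bits (C z))) :
    NPC.Poly C :=
  (NPC.Poly.optCases (o := fun z => unbits (List Unit × List Gate) (bits (C z)))
    (g := fun _ => (([], []) : List Unit × List Gate)) (h := fun _ b => b)
    (poly_unbits.comp (Pool.Agent.H622R2.poly_of_polyTime hC)) (NPC.Poly.const _)
    (NPC.Poly.snd NPC.Poly.id)).congr fun z => by rw [unbits_bits]

/-- The estimate of all acceptance probabilities. -/
def Est (O : Oracle) : Prop :=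
  ∃ G : List Bool → List Bool, IsFP O G ∧
    ∀ (c : List Unit × List Gate) (k : List Unit) (r : ℕ) (s : List Bool),
      1 ≤ k.length → Rounds r c.2 →
      ((bits (c, k)).length + 2) ^ (25 * (r + 1) ^ 2) ≤ s.length →
      |accProb O c - (G (pairBits (bits (c, k)) s)).length / (2 * k.length)| ≤ 1 / k.length

theorem dtime_of_est {O : Oracle} (hE : Est O) (r : ℕ → ℕ) (c s : ℝ) (Y N : Set (List Bool))
    (hsc : s < c) (h : IsBQPR r c s O Y N) :
    ∃ d : ℕ, IsDTime (fun n => (n + 2) ^ (d * (r n + 1) ^ 2)) O Y N := by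
  obtain ⟨G, hG, hEst⟩ := hE
  obtain ⟨F, C, hF, hC, hx⟩ := h
  obtain ⟨k₀, hk₀⟩ := exists_nat_gt (2 / (c - s))
  have hcs : 0 < c - s := by linarith
  have hk0 : (0 : ℝ) < k₀ := lt_trans (by positivity) hk₀
  have hk1 : 1 ≤ k₀ := by
    have : 0 < k₀ := by exact_mod_cast hk0
    omega
  have hk2 : (1 : ℝ) / k₀ < (c - s) / 2 := by
    rw [div_lt_iff₀ hcs] at hk₀
    rw [div_lt_div_iff₀ hk0 (by norm_num)]
    linarith
  set k : List Unit := List.replicate k₀ () with hk
  have hkl : k.length = k₀ := List.length_replicate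
  obtain ⟨d, hd⟩ := circ_bound hF hC k
  set t₀ : ℕ := ⌈(c + s) * k₀⌉₊ with ht
  set V : List Bool → List Bool := fun z =>
    [decide (t₀ ≤ (G (pairBits (bits (C (F (unpair z).1), k)) (unpair z).2)).length)] with hV
  have hCp : NPC.Poly C := poly_of_bits hC
  have hVfp : IsFP O V := by
    have h1 : IsFP O (fun z => pairBits (F (unpair z).1) (unpair z).2) :=
      IsFP.pair (hF.comp (IsFP.of_poly (F := fun z => (unpair z).1) (NPC.Poly.fst poly_unpair)))
        (IsFP.of_poly (F := fun z => (unpair z).2) (NPC.Poly.snd poly_unpair))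
    have h2 : NPC.Poly (fun v : List Bool => pairBits (bits (C (unpair v).1, k)) (unpair v).2) :=
      Pool.Agent.H622R2.poly_pairBits (poly_bitsF (NPC.Poly.pair
        (hCp.comp (NPC.Poly.fst poly_unpair)) (NPC.Poly.const k))) (NPC.Poly.snd poly_unpair)
    have h3 : NPC.Poly (fun v : List Bool => [decide (t₀ ≤ v.length)]) :=
      NPC.Poly.cons (NPC.Poly.decide_le (NPC.Poly.const t₀) (NPC.Poly.length NPC.Poly.id))
        (NPC.Poly.const [])
    have h4 := (IsFP.of_poly (A := O) h3).comp (hG.comp ((IsFP.of_poly (A := O) h2).comp h1))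
    refine (congrArg (IsFP O) ?_).mp h4
    funext z
    simp only [hV, unpair_pairBits]
  refine ⟨25 * d, V, hVfp, fun x w hw => ?_⟩
  have hpad : ((bits (C (F x), k)).length + 2) ^ (25 * (r x.length + 1) ^ 2) ≤ w.length := by
    refine le_trans ?_ hw
    refine (Nat.pow_le_pow_left (hd x) _).trans (le_of_eq ?_)
    rw [← pow_mul]
    congr 1
    ring
  have hVx : V (pairBits x w) =
      [decide (t₀ ≤ (G (pairBits (bits (C (F x), k)) w)).length)] := by
    simp only [hV, unpair_pairBits]
  rw [hVx]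
  constructor
  · intro hxY
    obtain ⟨h1, h2⟩ := (hx x).1 hxY
    have h3 := hEst (C (F x)) k (r x.length) w (by rw [hkl]; exact hk1) h1 hpad
    rw [hkl] at h3
    set g : ℕ := (G (pairBits (bits (C (F x), k)) w)).length with hg
    have h4 := (abs_le.1 h3).2
    have h5 : (c + s) / 2 ≤ (g : ℝ) / (2 * k₀) := by linarith
    rw [le_div_iff₀ (by positivity)] at h5
    have h6 : t₀ ≤ g := by
      rw [ht, Nat.ceil_le]
      linarith
    rw [decide_eq_true h6]
  · intro hxN
    obtain ⟨h1, h2⟩ := (hx x).2 hxN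
    have h3 := hEst (C (F x)) k (r x.length) w (by rw [hkl]; exact hk1) h1 hpad
    rw [hkl] at h3
    set g : ℕ := (G (pairBits (bits (C (F x), k)) w)).length with hg
    have h4 := (abs_le.1 h3).1
    have h5 : (g : ℝ) / (2 * k₀) < (c + s) / 2 := by linarith
    rw [div_lt_iff₀ (by positivity)] at h5
    have h6 : ¬ t₀ ≤ g := by
      rw [not_le, ht, Nat.lt_ceil]
      linarith
    rw [decide_eq_false h6]

theorem p_of_dtime {O : Oracle} {Y N : Set (List Bool)} (e : ℕ)
    (h : IsDTime (fun n => (n + 2) ^ e) O Y N) :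
    ∃ L : Set (List Bool), IsP O L ∧ Y ⊆ L ∧ Disjoint L N := by
  obtain ⟨V, hV, hx⟩ := h
  set pad : List Bool → List Bool := fun x => List.replicate ((x.length + 2) ^ e) true with hpad
  have pp : NPC.Poly pad := by
    have h1 : UPoly (fun x : List Bool => ((Polynomial.X + 2 : Polynomial ℕ) ^ e).eval x.length) :=
      UPoly.eval (UPoly.length NPC.Poly.id) _
    refine (NPC.Poly.map (F := fun (_ : List Bool) (_ : Unit) => true) h1
      (NPC.Poly.const true)).congr fun x => ?_
    rw [List.map_replicate]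
    simp [hpad]
  refine ⟨{x | V (pairBits x (pad x)) = [true]}, ⟨fun x => V (pairBits x (pad x)),
    hV.comp (IsFP.of_poly (F := fun x => pairBits x (pad x))
      (Pool.Agent.H622R2.poly_pairBits NPC.Poly.id pp)), fun x => Iff.rfl⟩, ?_, ?_⟩
  · intro x hxY
    exact (hx x (pad x) (by simp [hpad])).1 hxY
  · rw [Set.disjoint_left]
    intro x hxL hxN
    have h1 := (hx x (pad x) (by simp [hpad])).2 hxN
    have h2 : V (pairBits x (pad x)) = [true] := hxL
    rw [h1] at h2
    simp at h2

theorem final (B₀ : Oracle) : ∃ B : Oracle, (∀ z, B (pairBits (false :: z) []) = B₀ z) ∧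
    ∀ᵐ A ∂randomOracle,
      (∃ G : List Bool → List Bool, IsFP (mix A B) G ∧
        ∀ (c : List Unit × List Gate) (k : List Unit) (r : ℕ) (s : List Bool),
          1 ≤ k.length → Rounds r c.2 →
          ((bits (c, k)).length + 2) ^ (25 * (r + 1) ^ 2) ≤ s.length →
          |accProb (mix A B) c - (G (pairBits (bits (c, k)) s)).length / (2 * k.length)| ≤
            1 / k.length) ∧
      (∀ (r : ℕ → ℕ) (c s : ℝ) (Y N : Set (List Bool)), s < c →
        IsBQPR r c s (mix A B) Y N →
        ∃ d : ℕ, IsDTime (fun n => (n + 2) ^ (d * (r n + 1) ^ 2)) (mix A B) Y N) ∧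
      ∀ (r : ℕ) (c s : ℝ) (Y N : Set (List Bool)), s < c →
        IsBQPR (fun _ => r) c s (mix A B) Y N →
        ∃ L : Set (List Bool), IsP (mix A B) L ∧ Y ⊆ L ∧ Disjoint L N := by
  obtain ⟨B, hB, hae⟩ := main B₀
  refine ⟨B, hB, ?_⟩
  filter_upwards [hae] with A hA
  have hE : Est (mix A B) := hA
  refine ⟨hA, fun r c s Y N hsc h => dtime_of_est hE r c s Y N hsc h, ?_⟩
  intro r c s Y N hsc h
  obtain ⟨d, hd⟩ := dtime_of_est hE (fun _ => r) c s Y N hsc h
  exact p_of_dtime _ hd

end Pool.Agent.TH682.WC
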