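import Pool.Agent.TH682.WC.Num

/-!
# The bound for the number of the questions
-/

set_option autoImplicit false
set_option linter.unusedSectionVars false

namespace Pool.Agent.TH682.WC

lemma NQ_le (n r k L q M : ℕ) (hk : k ≤ n) (hL : L ≤ n + 2) (hq : q ≤ n)
    (hM : M ≤ 3 * (n + 2) + r) : NQ r k L q M ≤ (n + 2) ^ (25 * (r + 1) ^ 2) := by
  obtain ⟨b, hb⟩ : ∃ b, b = n + 2 := ⟨_, rfl⟩
  have hb2 : 2 ≤ b := by omega
  have hb1 : 1 ≤ b := by omega
  rw [← hb] at hL hM ⊢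
  have two : ∀ j : ℕ, 2 ^ j ≤ b ^ j := fun j => Nat.pow_le_pow_left hb2 j
  have hr : r + 1 ≤ b ^ r := (Nat.lt_two_pow_self (n := r)).trans_le (two r)
  have hk' : k ≤ b := by omega
  have hq' : q + 1 ≤ b := by omega
  have h4 : 4 ^ r ≤ b ^ (2 * r) := by
    have : (4 : ℕ) ^ r = 2 ^ (2 * r) := by rw [pow_mul]; norm_num
    rw [this]
    exact two _
  have h16 : 16 ^ r ≤ b ^ (4 * r) := by
    have : (16 : ℕ) ^ r = 2 ^ (4 * r) := by rw [pow_mul]; norm_num
    rw [this]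
    exact two _
  have c144 : 144 ≤ b ^ 8 := le_trans (by norm_num) (two 8)
  have c8 : 8 ≤ b ^ 3 := le_trans (by norm_num) (two 3)
  have c10368 : 10368 ≤ b ^ 14 := le_trans (by norm_num) (two 14)
  have hD : DD r k ≤ b ^ (9 + 3 * r) := by
    unfold DD
    calc 144 * k * 4 ^ r * (r + 1) ≤ b ^ 8 * b * b ^ (2 * r) * b ^ r := by gcongr
      _ = b ^ (9 + 3 * r) := by ring
  have hM' : M ≤ b ^ (r + 3) := by
    have h1 : b ≤ b ^ (r + 1) := by
      calc b = b ^ 1 := (pow_one b).symm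
        _ ≤ b ^ (r + 1) := Nat.pow_le_pow_right hb1 (by omega)
    have h2 : b ^ r ≤ b ^ (r + 1) := Nat.pow_le_pow_right hb1 (by omega)
    have h3 : 4 ≤ b ^ 2 := le_trans (by norm_num) (two 2)
    calc M ≤ 3 * b + r := hM
      _ ≤ 4 * b ^ (r + 1) := by omega
      _ ≤ b ^ 2 * b ^ (r + 1) := by gcongr
      _ = b ^ (r + 3) := by ring
  have hLq : L * (q + 1) + M ≤ b ^ (r + 4) := by
    have h1 : L * (q + 1) ≤ b ^ (r + 3) := by
      calc L * (q + 1) ≤ b * b := by gcongr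
        _ = b ^ 2 := by ring
        _ ≤ b ^ (r + 3) := Nat.pow_le_pow_right hb1 (by omega)
    calc L * (q + 1) + M ≤ 2 * b ^ (r + 3) := by omega
      _ ≤ b * b ^ (r + 3) := by gcongr
      _ = b ^ (r + 4) := by ring
  have hK : KK r k L q M ≤ b ^ (44 + 14 * r) := by
    unfold KK
    calc 8 * (r + 1) * L * (L * (q + 1) + M) * DD r k ^ 4
        ≤ b ^ 3 * b ^ r * b * b ^ (r + 4) * (b ^ (9 + 3 * r)) ^ 4 := by gcongr
      _ = b ^ (44 + 14 * r) := by ring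
  unfold NQ
  calc 10368 * r * L ^ 2 * k ^ 2 * 16 ^ r * KK r k L q M ^ r
      ≤ b ^ 14 * b ^ r * b ^ 2 * b ^ 2 * b ^ (4 * r) * (b ^ (44 + 14 * r)) ^ r := by
        gcongr
        omega
    _ = b ^ (18 + 5 * r + (44 + 14 * r) * r) := by
        rw [← pow_mul]
        ring
    _ ≤ b ^ (25 * (r + 1) ^ 2) := by
        refine Nat.pow_le_pow_right hb1 ?_
        nlinarith

end Pool.Agent.TH682.WC
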