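import Pool.Agent.W938.QM.Core

/-!
# Adaptive classical simulation of hybrid systems

An abstract form of quantum query algorithms with rounds: `p t y S` is the probability that round
`t` asks for a coordinate in `S` on input `y`, `f y` is the probability of acceptance.
-/

set_option autoImplicit false
set_option linter.unusedSectionVars false

namespace Pool.Agent.TH682.WC

open Finset Pool.Agent.H722R2.AA Pool.Agent.H746R2.AA Pool.Agent.H703R2.AA Pool.Agent.H703R2.AA.Pr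
open Pool.Agent.W938.CQ Pool.Agent.W938.QM

variable {n T : ℕ}

/-- The coordinates at which two points differ. -/
def df (y y' : Fin n → ℤˣ) : Finset (Fin n) := Finset.univ.filter fun i => y i ≠ y' i

/-- A hybrid system. -/
structure Sys (n T : ℕ) where
  p : ℕ → (Fin n → ℤˣ) → Finset (Fin n) → ℝ
  f : (Fin n → ℤˣ) → ℝ
  L : ℝ
  L1 : 1 ≤ L
  nonneg : ∀ t y S, 0 ≤ p t y S
  mono : ∀ t y S S', S ⊆ S' → p t y S ≤ p t y S'
  add : ∀ t y S S', p t y (S ∪ S') ≤ p t y S + p t y S'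
  sum : ∀ t y S, p t y S ≤ ∑ i ∈ S, p t y {i}
  tot : ∀ t y, ∑ i, p t y {i} ≤ L
  hyb : ∀ j < T, ∀ y y' S, √(p j y S) ≤ √(p j y' S) + 2 * ∑ t ∈ range j, √(p t y (df y y'))
  hybf : ∀ y y', |√(f y) - √(f y')| ≤ 2 * ∑ t ∈ range T, √(p t y (df y y'))

/-! ### Stopping sets -/

lemma avgK (K : (Fin n → ℤˣ) → Finset (Fin n))
    (hK : ∀ y y', (∀ i ∈ K y, y' i = y i) → K y' = K y) (G : (Fin n → ℤˣ) → ℝ) :
    Ex G = Ex (fun y => Ex (fun z => G (spl (K y) y z))) := by
  classical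
  have h1 : ∀ y, G y = ∑ H : Finset (Fin n), (if K y = H then 1 else 0) * G y := by
    intro y
    rw [← Finset.sum_mul, Finset.sum_ite_eq]
    simp
  have h2 : ∀ y, Ex (fun z => G (spl (K y) y z)) =
      ∑ H : Finset (Fin n), (if K y = H then 1 else 0) * Ex (fun z => G (spl H y z)) := by
    intro y
    have : ∀ H : Finset (Fin n), (if K y = H then (1 : ℝ) else 0) * Ex (fun z => G (spl H y z)) =
        (if K y = H then 1 else 0) * Ex (fun z => G (spl (K y) y z)) := by
      intro H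
      split_ifs with h
      · rw [h]
      · simp
    rw [Finset.sum_congr rfl fun H _ => this H, ← Finset.sum_mul, Finset.sum_ite_eq]
    simp
  rw [Ex_congr h1, Ex_congr h2, Ex_sum, Ex_sum]
  refine Finset.sum_congr rfl fun H _ => ?_
  rw [← spl_avg H]
  refine Ex_congr fun a => ?_
  rw [← Ex_mul_left]
  refine Ex_congr fun z => ?_
  congr 1
  have e : K (spl H a z) = H ↔ K a = H := by
    constructor
    · intro h
      have := hK (spl H a z) a (fun i hi => by
        rw [h] at hi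
        unfold spl
        rw [if_pos hi])
      rw [this, h]
    · intro h
      have := hK a (spl H a z) (fun i hi => by
        rw [h] at hi
        unfold spl
        rw [if_pos hi])
      rw [this, h]
  by_cases h : K a = H
  · rw [if_pos h, if_pos (e.2 h)]
  · rw [if_neg h, if_neg (fun h' => h (e.1 h'))]

/-- The set of the coordinates asked in the stages before `j`. -/
noncomputable def K (Q : Sys n T) (τ : ℕ → ℝ) : ℕ → (Fin n → ℤˣ) → Finset (Fin n)
  | 0, _ => ∅
  | j + 1, y => K Q τ j y ∪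
      Finset.univ.filter fun i => τ j ≤ Ex (fun z => Q.p j (spl (K Q τ j y) y z) {i})

variable (Q : Sys n T) (τ : ℕ → ℝ)

lemma spl_congr {H : Finset (Fin n)} {a b : Fin n → ℤˣ} (h : ∀ i ∈ H, b i = a i) (z : Fin n → ℤˣ) :
    spl H b z = spl H a z := by
  funext i
  unfold spl
  by_cases hi : i ∈ H
  · simp only [hi, if_true]; exact h i hi
  · simp [hi]

lemma K_sub (j : ℕ) (y : Fin n → ℤˣ) : K Q τ j y ⊆ K Q τ (j + 1) y := by
  rw [K]
  exact Finset.subset_union_left

lemma K_mono {j k : ℕ} (h : j ≤ k) (y : Fin n → ℤˣ) : K Q τ j y ⊆ K Q τ k y := by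
  induction h with
  | refl => exact Finset.Subset.refl _
  | step _ ih => exact ih.trans (K_sub Q τ _ y)

lemma K_congr (j : ℕ) : ∀ y y' : Fin n → ℤˣ, (∀ i ∈ K Q τ j y, y' i = y i) →
    K Q τ j y' = K Q τ j y := by
  induction j with
  | zero => intro y y' _; rfl
  | succ j ih =>
    intro y y' h
    have h1 : ∀ i ∈ K Q τ j y, y' i = y i := fun i hi => h i (K_sub Q τ j y hi)
    have h2 := ih y y' h1
    rw [K, K, h2]
    congr 1
    ext i
    simp only [Finset.mem_filter, Finset.mem_univ, true_and]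
    have : ∀ z, spl (K Q τ j y) y' z = spl (K Q τ j y) y z := fun z => spl_congr h1 z
    simp only [this]

lemma K_spl (j : ℕ) (y z : Fin n → ℤˣ) : K Q τ j (spl (K Q τ j y) y z) = K Q τ j y :=
  K_congr Q τ j y _ fun i hi => by unfold spl; rw [if_pos hi]

lemma K_succ_spl (j : ℕ) (y z : Fin n → ℤˣ) :
    K Q τ (j + 1) (spl (K Q τ j y) y z) = K Q τ (j + 1) y := by
  rw [K, K, K_spl]
  congr 1
  ext i
  simp only [Finset.mem_filter, Finset.mem_univ, true_and, spl_spl]

lemma K_le_spl {t j : ℕ} (h : t ≤ j) (y z : Fin n → ℤˣ) :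
    K Q τ t (spl (K Q τ j y) y z) = K Q τ t y :=
  K_congr Q τ t y _ fun i hi => by unfold spl; rw [if_pos (K_mono Q τ h y hi)]

lemma light {j : ℕ} {y : Fin n → ℤˣ} {i : Fin n} (h : i ∉ K Q τ (j + 1) y) :
    Ex (fun z => Q.p j (spl (K Q τ j y) y z) {i}) < τ j := by
  rw [K, Finset.mem_union, Finset.mem_filter, not_or] at h
  by_contra hc
  exact h.2 ⟨Finset.mem_univ _, not_lt.1 hc⟩

/-- The number of coordinates asked. -/
lemma card_K (hτ : ∀ j, 0 < τ j) (j : ℕ) (y : Fin n → ℤˣ) :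
    ((K Q τ j y).card : ℝ) ≤ ∑ t ∈ range j, Q.L / τ t := by
  classical
  induction j with
  | zero => simp [K]
  | succ j ih =>
    rw [K, Finset.sum_range_succ]
    refine (Nat.cast_le.2 (Finset.card_union_le _ _)).trans ?_
    rw [Nat.cast_add]
    refine add_le_add ih ?_
    rw [le_div_iff₀ (hτ j)]
    set F := Finset.univ.filter fun i => τ j ≤ Ex (fun z => Q.p j (spl (K Q τ j y) y z) {i}) with hF
    calc (F.card : ℝ) * τ j = ∑ _i ∈ F, τ j := by rw [Finset.sum_const, nsmul_eq_mul]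
      _ ≤ ∑ i ∈ F, Ex (fun z => Q.p j (spl (K Q τ j y) y z) {i}) :=
        Finset.sum_le_sum fun i hi => (Finset.mem_filter.1 hi).2
      _ ≤ ∑ i, Ex (fun z => Q.p j (spl (K Q τ j y) y z) {i}) :=
        Finset.sum_le_sum_of_subset_of_nonneg (Finset.subset_univ _)
          fun i _ _ => Ex_nonneg fun z => Q.nonneg _ _ _
      _ = Ex (fun z => ∑ i, Q.p j (spl (K Q τ j y) y z) {i}) := (Ex_sum _ _).symm
      _ ≤ Q.L := Ex_le_const fun z => Q.tot _ _

/-! ### Unexpected weight -/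

/-- The coordinates which are not asked but have a large weight. -/
noncomputable def U (θ : ℕ → ℝ) (j : ℕ) (y : Fin n → ℤˣ) : Finset (Fin n) :=
  Finset.univ.filter fun i => i ∉ K Q τ (j + 1) y ∧ θ j ≤ Q.p j y {i}

/-- The unexpected weight is small. -/
def Gd (θ a : ℕ → ℝ) (j : ℕ) (y : Fin n → ℤˣ) : Prop := Q.p j y (U Q τ θ j y) ≤ a j ^ 2

lemma card_U {θ : ℕ → ℝ} (j : ℕ) (y : Fin n → ℤˣ) :
    ((U Q τ θ j y).card : ℝ) * θ j ≤ Q.L := by
  calc ((U Q τ θ j y).card : ℝ) * θ j = ∑ _i ∈ U Q τ θ j y, θ j := by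
        rw [Finset.sum_const, nsmul_eq_mul]
    _ ≤ ∑ i ∈ U Q τ θ j y, Q.p j y {i} :=
        Finset.sum_le_sum fun i hi => (Finset.mem_filter.1 hi).2.2
    _ ≤ ∑ i, Q.p j y {i} := Finset.sum_le_sum_of_subset_of_nonneg (Finset.subset_univ _)
        fun i _ _ => Q.nonneg _ _ _
    _ ≤ Q.L := Q.tot _ _

/-- The light part of the weight. -/
noncomputable def lt (θ : ℕ → ℝ) (t : ℕ) (y : Fin n → ℤˣ) (i : Fin n) : ℝ :=
  if Q.p t y {i} < θ t then Q.p t y {i} else 0

lemma lt_nonneg (θ : ℕ → ℝ) (t : ℕ) (y : Fin n → ℤˣ) (i : Fin n) : 0 ≤ lt Q θ t y i := by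
  unfold lt
  split_ifs
  · exact Q.nonneg _ _ _
  · exact le_rfl

lemma lt_le {θ : ℕ → ℝ} (hθ : ∀ t, 0 ≤ θ t) (t : ℕ) (y : Fin n → ℤˣ) (i : Fin n) :
    lt Q θ t y i ≤ θ t := by
  unfold lt
  split_ifs with h
  · exact h.le
  · exact hθ t

lemma lt_le_p (θ : ℕ → ℝ) (t : ℕ) (y : Fin n → ℤˣ) (i : Fin n) :
    lt Q θ t y i ≤ Q.p t y {i} := by
  unfold lt
  split_ifs
  · exact le_rfl
  · exact Q.nonneg _ _ _

/-- The weight of a set of free coordinates in a good point. -/
lemma p_df {θ a : ℕ → ℝ} {t j : ℕ} (htj : t < j) {y : Fin n → ℤˣ}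
    (hg : Gd Q τ θ a t y) (D : Finset (Fin n)) (hD : ∀ i ∈ D, i ∉ K Q τ j y) :
    Q.p t y D ≤ ∑ i ∈ D, lt Q θ t y i + a t ^ 2 := by
  classical
  set D1 := D.filter fun i => Q.p t y {i} < θ t with hD1
  set D2 := D.filter fun i => ¬ Q.p t y {i} < θ t with hD2
  have e : D = D1 ∪ D2 := (Finset.filter_union_filter_not_eq _ _).symm
  have h1 : Q.p t y D ≤ Q.p t y D1 + Q.p t y D2 := by
    conv_lhs => rw [e]
    exact Q.add _ _ _ _
  have h2 : Q.p t y D1 ≤ ∑ i ∈ D, lt Q θ t y i := by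
    refine (Q.sum t y D1).trans ?_
    rw [hD1, Finset.sum_filter]
    exact le_of_eq (Finset.sum_congr rfl fun i _ => rfl)
  have h3 : Q.p t y D2 ≤ a t ^ 2 := by
    refine (Q.mono t y D2 (U Q τ θ t y) ?_).trans hg
    intro i hi
    rw [hD2, Finset.mem_filter] at hi
    refine Finset.mem_filter.2 ⟨Finset.mem_univ _, fun hk => ?_, not_lt.1 hi.2⟩
    exact hD i hi.1 (K_mono Q τ htj y hk)
  linarith

/-- Talagrand's inequality for the hybrid system. -/
lemma far {θ a : ℕ → ℝ} (hθ : ∀ t, 0 ≤ θ t) (ha : ∀ t, 0 ≤ a t) (j : ℕ) (b : Fin n → ℤˣ)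
    (A B : (Fin n → ℤˣ) → Prop) (Δ ω s2 : ℝ) (hω : 0 ≤ ω) (hs2 : 0 < s2) (hΔ0 : 0 < Δ)
    (hs : (j : ℝ) * Q.L * ∑ t ∈ range j, θ t ≤ s2)
    (hΔ : 2 * ∑ t ∈ range j, a t + 2 * j * √ω ≤ Δ)
    (hB : ∀ z, B z → ∀ t < j, Gd Q τ θ a t (spl (K Q τ j b) b z))
    (hAB : ∀ z z', B z → A z' → Δ ≤ 2 * ∑ t ∈ range j,
      √(Q.p t (spl (K Q τ j b) b z) (df (spl (K Q τ j b) b z) (spl (K Q τ j b) b z')))) :
    Pb A * Pb B ≤ Real.exp (-(ω ^ 2 / (4 * s2))) := by
  classical
  set H := K Q τ j b with hH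
  set w : (Fin n → ℤˣ) → Fin n → ℝ := fun x i =>
    if i ∈ H then 0 else ∑ t ∈ range j, lt Q θ t (spl H b x) i with hw
  have hw0 : ∀ x i, 0 ≤ w x i := by
    intro x i
    simp only [hw]
    split_ifs
    · exact le_rfl
    · exact Finset.sum_nonneg fun t _ => lt_nonneg Q θ t _ i
  have hΘ0 : 0 ≤ ∑ t ∈ range j, θ t := Finset.sum_nonneg fun t _ => hθ t
  refine tal_use A B w s2 ω hω hs2 (fun x hx => ?_) (fun x y hx hy => ?_)
  · have h1 : ∀ i, w x i ^ 2 ≤ (∑ t ∈ range j, θ t) * w x i := by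
      intro i
      rw [sq]
      refine mul_le_mul_of_nonneg_right ?_ (hw0 x i)
      simp only [hw]
      split_ifs
      · exact hΘ0
      · exact Finset.sum_le_sum fun t _ => lt_le Q hθ t _ i
    have h2 : ∑ i, w x i ≤ j * Q.L := by
      calc ∑ i, w x i ≤ ∑ i, ∑ t ∈ range j, Q.p t (spl H b x) {i} := by
            refine Finset.sum_le_sum fun i _ => ?_
            simp only [hw]
            split_ifs
            · exact Finset.sum_nonneg fun t _ => Q.nonneg _ _ _
            · exact Finset.sum_le_sum fun t _ => lt_le_p Q θ t _ i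
        _ = ∑ t ∈ range j, ∑ i, Q.p t (spl H b x) {i} := Finset.sum_comm
        _ ≤ ∑ _t ∈ range j, Q.L := Finset.sum_le_sum fun t _ => Q.tot _ _
        _ = j * Q.L := by rw [Finset.sum_const, card_range, nsmul_eq_mul]
    calc ∑ i, w x i ^ 2 ≤ ∑ i, (∑ t ∈ range j, θ t) * w x i := Finset.sum_le_sum fun i _ => h1 i
      _ = (∑ t ∈ range j, θ t) * ∑ i, w x i := by rw [Finset.mul_sum]
      _ ≤ (∑ t ∈ range j, θ t) * (j * Q.L) := mul_le_mul_of_nonneg_left h2 hΘ0
      _ = (j : ℝ) * Q.L * ∑ t ∈ range j, θ t := by ring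
      _ ≤ s2 := hs
  · set Y := spl H b x with hY
    set Y' := spl H b y with hY'
    set W := ∑ i, w x i * ind (x i ≠ y i) with hW
    have hW0 : 0 ≤ W := Finset.sum_nonneg fun i _ => mul_nonneg (hw0 x i) (ind_nonneg _)
    have hDf : ∀ i ∈ df Y Y', i ∉ H := by
      intro i hi hiH
      rw [df, Finset.mem_filter] at hi
      apply hi.2
      simp only [hY, hY', spl, if_pos hiH]
    have hKY : K Q τ j Y = H := K_spl Q τ j b x
    have h1 : ∀ t ∈ range j, √(Q.p t Y (df Y Y')) ≤ √W + a t := by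
      intro t ht
      rw [mem_range] at ht
      have h2 := p_df Q τ ht (hB x hx t ht) (df Y Y') (fun i hi => by
        rw [hKY]; exact hDf i hi)
      have h3 : ∑ i ∈ df Y Y', lt Q θ t Y i ≤ W := by
        rw [hW]
        have : ∀ i ∈ df Y Y', lt Q θ t Y i ≤ w x i * ind (x i ≠ y i) := by
          intro i hi
          have hiH := hDf i hi
          rw [df, Finset.mem_filter] at hi
          have hne : x i ≠ y i := by
            have := hi.2
            simpa only [hY, hY', spl, if_neg hiH] using this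
          have e1 : ind (x i ≠ y i) = 1 := by unfold ind; rw [if_pos hne]
          rw [e1, mul_one]
          simp only [hw, if_neg hiH]
          exact Finset.single_le_sum (f := fun t => lt Q θ t (spl H b x) i)
            (fun t _ => lt_nonneg Q θ t _ i) (mem_range.2 ht)
        exact (Finset.sum_le_sum this).trans (Finset.sum_le_sum_of_subset_of_nonneg
          (Finset.subset_univ _) fun i _ _ => mul_nonneg (hw0 x i) (ind_nonneg _))
      have h4 : Q.p t Y (df Y Y') ≤ (√W + a t) ^ 2 := by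
        have h5 := Real.sq_sqrt hW0
        nlinarith [mul_nonneg (Real.sqrt_nonneg W) (ha t)]
      exact Real.sqrt_le_iff.2 ⟨add_nonneg (Real.sqrt_nonneg _) (ha t), h4⟩
    have h2 := hAB x y hx hy
    have h3 : ∑ t ∈ range j, √(Q.p t Y (df Y Y')) ≤ j * √W + ∑ t ∈ range j, a t := by
      refine (Finset.sum_le_sum h1).trans (le_of_eq ?_)
      rw [Finset.sum_add_distrib, Finset.sum_const, card_range, nsmul_eq_mul]
    rcases Nat.eq_zero_or_pos j with hj | hj
    · subst hj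
      simp only [Finset.range_zero, Finset.sum_empty, mul_zero] at h2
      linarith
    · have hj' : (0 : ℝ) < j := Nat.cast_pos.2 hj
      have h4 : (j : ℝ) * √ω ≤ j * √W := by linarith
      have h5 : √ω ≤ √W := le_of_mul_le_mul_left h4 hj'
      exact (Real.sqrt_le_sqrt_iff hW0).1 h5

end Pool.Agent.TH682.WC
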