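import Pool.Agent.TH682.WC.Defs
import Pool.Agent.TH682.WC.Core
import Pool.Agent.W938.Rnd.Flow

/-!
# Circuits with rounds are hybrid systems
-/

set_option autoImplicit false
set_option linter.unusedSectionVars false

namespace Pool.Agent.TH682.WC

open Finset Pool.Agent.NPC Pool.Agent.H620R2.Gauge Pool.Agent.W938.Hyb
open Pool.Agent.H703R2.AA (nsq nsq_nonneg)
open Pool.Agent.W938.Rnd (circ_sub circ_add)

variable {m : ℕ}

/-! ### Norms -/

/-- The norm. -/
noncomputable def nrm (ψ : (Fin m → Bool) → ℝ) : ℝ := √(nsq ψ)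

lemma nrm_eq (ψ : (Fin m → Bool) → ℝ) :
    nrm ψ = ‖(WithLp.toLp 2 ψ : EuclideanSpace ℝ (Fin m → Bool))‖ := by
  unfold nrm nsq
  rw [EuclideanSpace.norm_eq]
  simp

lemma nrm_nonneg (ψ : (Fin m → Bool) → ℝ) : 0 ≤ nrm ψ := Real.sqrt_nonneg _

lemma nrm_add (ψ φ : (Fin m → Bool) → ℝ) : nrm (fun s => ψ s + φ s) ≤ nrm ψ + nrm φ := by
  rw [nrm_eq, nrm_eq, nrm_eq]
  exact norm_add_le (WithLp.toLp 2 ψ : EuclideanSpace ℝ (Fin m → Bool)) (WithLp.toLp 2 φ)

lemma nrm_sub (ψ φ : (Fin m → Bool) → ℝ) : nrm (fun s => ψ s - φ s) ≤ nrm ψ + nrm φ := by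
  rw [nrm_eq, nrm_eq, nrm_eq]
  exact norm_sub_le (WithLp.toLp 2 ψ : EuclideanSpace ℝ (Fin m → Bool)) (WithLp.toLp 2 φ)

lemma nrm_symm (ψ φ : (Fin m → Bool) → ℝ) :
    nrm (fun s => ψ s - φ s) = nrm (fun s => φ s - ψ s) := by
  unfold nrm nsq
  congr 1
  exact Finset.sum_congr rfl fun s _ => by ring

lemma nrm_circ (A : Oracle) (l : List Gate) (ψ : (Fin m → Bool) → ℝ) :
    nrm (circAct A l ψ) = nrm ψ := by
  unfold nrm
  rw [nsq_circAct]

open Classical in
/-- The restriction of a vector. -/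
noncomputable def rs (P : (Fin m → Bool) → Prop) (ψ : (Fin m → Bool) → ℝ) : (Fin m → Bool) → ℝ :=
  fun s => if P s then ψ s else 0

lemma nsq_rs_le (P : (Fin m → Bool) → Prop) (ψ : (Fin m → Bool) → ℝ) : nsq (rs P ψ) ≤ nsq ψ := by
  unfold nsq rs
  refine Finset.sum_le_sum fun s _ => ?_
  split_ifs
  · exact le_rfl
  · rw [zero_pow two_ne_zero]
    exact sq_nonneg _

lemma rs_diff (P : (Fin m → Bool) → Prop) (ψ φ : (Fin m → Bool) → ℝ) :
    nrm (rs P ψ) ≤ nrm (rs P φ) + nrm (fun s => ψ s - φ s) := by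
  have h1 : rs P ψ = fun s => rs P φ s + rs P (fun s => ψ s - φ s) s := by
    funext s
    unfold rs
    split_ifs <;> ring
  rw [h1]
  refine (nrm_add _ _).trans ?_
  have h2 : nrm (rs P (fun s => ψ s - φ s)) ≤ nrm (fun s => ψ s - φ s) :=
    Real.sqrt_le_sqrt (nsq_rs_le _ _)
  exact add_le_add_right h2 _

/-! ### The questions of a round -/

/-- In the basis state `s`, a gate of `R` asks about a string from `S`. -/
def Ask (R : List Gate) (S : Set (List Bool)) (s : Fin m → Bool) : Prop :=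
  ∃ q k, Sum.inr (true, q, k) ∈ R ∧ q.map (rd s) ∈ S

lemma Ask_flipIf {R : List Gate} (S : Set (List Bool)) {k : ℕ}
    (hR : ∀ q' k', Sum.inr (true, q', k') ∈ R → k ∉ q') (c : (Fin m → Bool) → Bool)
    (s : Fin m → Bool) : Ask R S (flipIf c k s) ↔ Ask R S s := by
  have key : ∀ s : Fin m → Bool, ∀ q' k', Sum.inr (true, q', k') ∈ R →
      q'.map (rd (flipIf c k s)) = q'.map (rd s) := by
    intro s q' k' h
    refine List.map_congr_left fun j hj => ?_
    have hjk : j ≠ k := by
      rintro rfl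
      exact hR q' k' h hj
    rw [flipIf_eq]
    split_ifs
    · exact Adm.rd_Xf_ne hjk s
    · rfl
  unfold Ask
  constructor
  · rintro ⟨q', k', h1, h2⟩
    exact ⟨q', k', h1, by rw [← key s q' k' h1]; exact h2⟩
  · rintro ⟨q', k', h1, h2⟩
    exact ⟨q', k', h1, by rw [key s q' k' h1]; exact h2⟩

lemma rs_gate (A : Oracle) {R : List Gate} (S : Set (List Bool)) {q : List ℕ} {k : ℕ}
    (hR : ∀ q' k', Sum.inr (true, q', k') ∈ R → k ∉ q') (ψ : (Fin m → Bool) → ℝ) :
    gateAct A (Sum.inr (true, q, k)) (rs (Ask R S) ψ) =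
      rs (Ask R S) (gateAct A (Sum.inr (true, q, k)) ψ) := by
  funext s
  simp only [gateAct, rs]
  rw [Ask_flipIf S hR]

lemma rs_circ (A : Oracle) {R : List Gate} (hR : Round R) (S : Set (List Bool)) :
    ∀ (l : List Gate), (∀ g ∈ l, g ∈ R) → ∀ ψ : (Fin m → Bool) → ℝ,
      circAct A l (rs (Ask R S) ψ) = rs (Ask R S) (circAct A l ψ)
  | [], _, _ => rfl
  | g :: l, hl, ψ => by
    have hg : g ∈ R := hl g List.mem_cons_self
    have h5 := hR.1 g hg
    unfold Free at h5
    push Not at h5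
    obtain ⟨q, k, rfl⟩ := h5
    rw [circAct, rs_gate A S (fun q' k' h => hR.2 q k q' k' hg h)]
    exact rs_circ A hR S l (fun g h => hl g (List.mem_cons_of_mem _ h)) _

/-- Two oracles which differ only on `S` do the same with the states which do not ask about
`S`. -/
lemma off_circ {R : List Gate} (hR : Round R) (S : Set (List Bool)) {A A' : Oracle}
    (hA : ∀ z, z ∉ S → A z = A' z) :
    ∀ (l : List Gate), (∀ g ∈ l, g ∈ R) → ∀ ψ : (Fin m → Bool) → ℝ, (∀ s, Ask R S s → ψ s = 0) →
      circAct A l ψ = circAct A' l ψ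
  | [], _, _, _ => rfl
  | g :: l, hl, ψ, hψ => by
    have hg : g ∈ R := hl g List.mem_cons_self
    have h5 := hR.1 g hg
    unfold Free at h5
    push Not at h5
    obtain ⟨q, k, rfl⟩ := h5
    have hkq : ∀ q' k', Sum.inr (true, q', k') ∈ R → k ∉ q' := fun q' k' h => hR.2 q k q' k' hg h
    have e : gateAct A (Sum.inr (true, q, k)) ψ = gateAct A' (Sum.inr (true, q, k)) ψ := by
      funext s
      simp only [gateAct]
      by_cases hs : Ask R S s
      · rw [hψ _ ((Ask_flipIf S hkq _ s).2 hs), hψ _ ((Ask_flipIf S hkq _ s).2 hs)]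
      · have hz : ∀ s' : Fin m → Bool, s' = clr k s → A (q.map (rd s')) = A' (q.map (rd s')) := by
          rintro s' rfl
          have e1 : q.map (rd (clr k s)) = q.map (rd s) := by
            refine List.map_congr_left fun j hj => Adm.rd_clr_ne ?_ s
            rintro rfl
            exact hkq q j hg hj
          rw [e1]
          exact hA _ fun hS => hs ⟨q, k, hg, hS⟩
        rw [flipIf_eq, flipIf_eq, hz _ rfl]
    rw [circAct, circAct, ← e]
    refine off_circ hR S hA l (fun g h => hl g (List.mem_cons_of_mem _ h)) _ ?_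
    intro s hs
    simp only [gateAct]
    exact hψ _ ((Ask_flipIf S hkq _ s).2 hs)

/-- The effect of the change of the oracle on one round. -/
lemma round_diff {R : List Gate} (hR : Round R) (S : Set (List Bool)) {A A' : Oracle}
    (hA : ∀ z, z ∉ S → A z = A' z) (ψ : (Fin m → Bool) → ℝ) :
    nrm (fun s => circAct A R ψ s - circAct A' R ψ s) ≤ 2 * nrm (rs (Ask R S) ψ) := by
  classical
  have hsplit : ψ = fun s => rs (Ask R S) ψ s + rs (fun s => ¬ Ask R S s) ψ s := by
    funext s
    unfold rs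
    by_cases h : Ask R S s <;> simp [h]
  have hn : circAct A R (rs (fun s => ¬ Ask R S s) ψ) = circAct A' R (rs (fun s => ¬ Ask R S s) ψ) :=
    off_circ hR S hA R (fun g h => h) _ (fun s hs => by unfold rs; rw [if_neg (not_not.2 hs)])
  have e1 : (fun s => circAct A R ψ s - circAct A' R ψ s)
      = fun s => circAct A R (rs (Ask R S) ψ) s - circAct A' R (rs (Ask R S) ψ) s := by
    funext s
    have h1 : circAct A R ψ s
        = circAct A R (rs (Ask R S) ψ) s + circAct A R (rs (fun s => ¬ Ask R S s) ψ) s := by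
      conv_lhs => rw [hsplit]
      rw [circ_add]
    have h2 : circAct A' R ψ s
        = circAct A' R (rs (Ask R S) ψ) s + circAct A' R (rs (fun s => ¬ Ask R S s) ψ) s := by
      conv_lhs => rw [hsplit]
      rw [circ_add]
    rw [h1, h2, hn]
    ring
  rw [e1]
  refine (nrm_sub _ _).trans ?_
  rw [nrm_circ, nrm_circ]
  linarith

/-- Gates without questions of even length. -/
lemma circ_efree {A A' : Oracle} (hA : ∀ z : List Bool, z.length % 2 = 1 → A z = A' z)
    (l : List Gate) (hl : ∀ g ∈ l, EFree g) (ψ : (Fin m → Bool) → ℝ) :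
    circAct A l ψ = circAct A' l ψ :=
  circAct_local l (fun q k h z hz => hA z (by rw [hz]; exact hl _ h q k rfl)) ψ

/-! ### The decomposition -/

/-- The gates before the round `t` and the free gates before it. -/
def flat (G R : ℕ → List Gate) : ℕ → List Gate
  | 0 => []
  | t + 1 => flat G R t ++ (G t ++ R t)

lemma flat_cons (G R : ℕ → List Gate) (g r : List Gate) : ∀ t : ℕ,
    flat (fun t => Nat.casesOn t g G) (fun t => Nat.casesOn t r R) (t + 1) = (g ++ r) ++ flat G R t
  | 0 => by simp [flat]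
  | t + 1 => by
    rw [flat, flat_cons G R g r t, flat, List.append_assoc]

lemma rounds_decomp : ∀ (r : ℕ) (l : List Gate), Rounds r l →
    ∃ G R : ℕ → List Gate, (∀ t, ∀ g ∈ G t, EFree g) ∧ (∀ t, Round (R t)) ∧
      (∀ t, (R t).length ≤ l.length) ∧ l = flat G R r ++ G r
  | 0, l, h => ⟨fun t => Nat.casesOn t l fun _ => [], fun _ => [],
      fun t => by
        cases t with
        | zero => exact h
        | succ t => simp,
      fun t => ⟨by simp, by simp⟩, by simp, by simp [flat]⟩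
  | r + 1, l, h => by
    obtain ⟨G, R, l', rfl, hG, hR, hl'⟩ := h
    obtain ⟨G', R', h1, h2, h3, h4⟩ := rounds_decomp r l' hl'
    refine ⟨fun t => Nat.casesOn t G G', fun t => Nat.casesOn t R R', ?_, ?_, ?_, ?_⟩
    · intro t
      cases t with
      | zero => exact hG
      | succ t => exact h1 t
    · intro t
      cases t with
      | zero => exact hR
      | succ t => exact h2 t
    · intro t
      cases t with
      | zero =>
        show R.length ≤ _
        simp only [List.length_append]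
        omega
      | succ t =>
        have := h3 t
        show (R' t).length ≤ _
        simp only [List.length_append]
        omega
    · show G ++ R ++ l' = flat _ _ (r + 1) ++ G' r
      rw [flat_cons, List.append_assoc (G ++ R), ← h4]

/-! ### The hybrid system -/

variable {n : ℕ} (e : Fin n → List Bool) (Or : (Fin n → ℤˣ) → Oracle) (G R : ℕ → List Gate)

/-- The strings of a set of coordinates. -/
def im (S : Finset (Fin n)) : Set (List Bool) := {z | ∃ i ∈ S, e i = z}

/-- The state before the round `t`. -/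
noncomputable def Ψ (m : ℕ) (t : ℕ) (y : Fin n → ℤˣ) : (Fin m → Bool) → ℝ :=
  circAct (Or y) (flat G R t ++ G t) (initSt m)

/-- The weight of a set of coordinates in the round `t`. -/
noncomputable def pw (m : ℕ) (t : ℕ) (y : Fin n → ℤˣ) (S : Finset (Fin n)) : ℝ :=
  nsq (rs (Ask (R t) (im e S)) (Ψ Or G R m t y))

lemma Ψ_succ (t : ℕ) (y : Fin n → ℤˣ) :
    Ψ Or G R m (t + 1) y = circAct (Or y) (G (t + 1)) (circAct (Or y) (R t) (Ψ Or G R m t y)) := by
  unfold Ψ
  rw [flat, ← circAct_append, ← circAct_append]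
  congr 1
  simp [List.append_assoc]

variable (hO : ∀ y y' z, Or y z ≠ Or y' z → ∃ i, e i = z ∧ y i ≠ y' i)
  (he : ∀ i, (e i).length % 2 = 0) (hG : ∀ t, ∀ g ∈ G t, EFree g) (hR : ∀ t, Round (R t))

include hO he hG hR in
/-- The distance of the states. -/
lemma Ψ_diff (y y' : Fin n → ℤˣ) : ∀ t : ℕ,
    nrm (fun s => Ψ Or G R m t y s - Ψ Or G R m t y' s) ≤
      2 * ∑ u ∈ range t, √(pw e Or G R m u y (df y y'))
  | 0 => by
    have hodd : ∀ z : List Bool, z.length % 2 = 1 → Or y z = Or y' z := by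
      intro z hz
      by_contra hc
      obtain ⟨i, h1, -⟩ := hO y y' z hc
      have := he i
      rw [h1] at this
      omega
    have h : Ψ Or G R m 0 y = Ψ Or G R m 0 y' := by
      unfold Ψ
      simp only [flat, List.nil_append]
      exact circ_efree hodd _ (hG 0) _
    rw [h]
    simp [nrm, nsq]
  | t + 1 => by
    have hodd : ∀ z : List Bool, z.length % 2 = 1 → Or y z = Or y' z := by
      intro z hz
      by_contra hc
      obtain ⟨i, h1, -⟩ := hO y y' z hc
      have := he i
      rw [h1] at this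
      omega
    have hA : ∀ z, z ∉ im e (df y y') → Or y z = Or y' z := by
      intro z hz
      by_contra hc
      obtain ⟨i, h1, h2⟩ := hO y y' z hc
      exact hz ⟨i, Finset.mem_filter.2 ⟨Finset.mem_univ _, h2⟩, h1⟩
    rw [Finset.sum_range_succ]
    have ih := Ψ_diff y y' t
    have h1 : Ψ Or G R m (t + 1) y' = circAct (Or y) (G (t + 1))
        (circAct (Or y') (R t) (Ψ Or G R m t y')) := by
      rw [Ψ_succ]
      exact (circ_efree hodd _ (hG (t + 1)) _).symm
    have h2 : (fun s => Ψ Or G R m (t + 1) y s - Ψ Or G R m (t + 1) y' s) =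
        circAct (Or y) (G (t + 1)) (fun s => circAct (Or y) (R t) (Ψ Or G R m t y) s -
          circAct (Or y') (R t) (Ψ Or G R m t y') s) := by
      rw [h1, Ψ_succ, circ_sub]
    rw [h2, nrm_circ]
    have h3 : (fun s => circAct (Or y) (R t) (Ψ Or G R m t y) s -
          circAct (Or y') (R t) (Ψ Or G R m t y') s) =
        fun s => (circAct (Or y) (R t) (Ψ Or G R m t y) s - circAct (Or y') (R t) (Ψ Or G R m t y) s) +
          circAct (Or y') (R t) (fun s => Ψ Or G R m t y s - Ψ Or G R m t y' s) s := by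
      rw [circ_sub]
      funext s
      ring
    rw [h3]
    refine (nrm_add _ _).trans ?_
    rw [nrm_circ]
    have h4 := round_diff (hR t) (im e (df y y')) hA (Ψ Or G R m t y)
    have h5 : nrm (rs (Ask (R t) (im e (df y y'))) (Ψ Or G R m t y)) =
      √(pw e Or G R m t y (df y y')) := rfl
    rw [h5] at h4
    linarith

lemma Ask_mono {R : List Gate} {S S' : Set (List Bool)} (h : S ⊆ S') {s : Fin m → Bool}
    (hs : Ask R S s) : Ask R S' s := by
  obtain ⟨q, k, h1, h2⟩ := hs
  exact ⟨q, k, h1, h h2⟩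

lemma card_ask (hinj : Function.Injective e) (R : List Gate) (s : Fin m → Bool) :
    Set.ncard {i : Fin n | Ask R (im e {i}) s} ≤ R.length := by
  classical
  set F : Finset (List Bool) := (R.toFinset.image fun g => match g with
    | Sum.inr (true, q, _) => q.map (rd s)
    | _ => []) with hF
  have h1 : {i : Fin n | Ask R (im e {i}) s} ⊆ e ⁻¹' (F : Set (List Bool)) := by
    rintro i ⟨q, k, h2, j, h3, h4⟩
    rw [Finset.mem_singleton] at h3
    subst h3
    rw [Set.mem_preimage, Finset.mem_coe, hF, Finset.mem_image]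
    exact ⟨Sum.inr (true, q, k), List.mem_toFinset.2 h2, h4.symm⟩
  have h2 : (e ⁻¹' (F : Set (List Bool))).ncard ≤ F.card := by
    rw [← Set.ncard_coe_finset F, ← Set.ncard_image_of_injective _ hinj]
    exact Set.ncard_le_ncard (Set.image_preimage_subset _ _) (Finset.finite_toSet F)
  have h3 : F.card ≤ R.length := Finset.card_image_le.trans (List.toFinset_card_le _)
  exact (Set.ncard_le_ncard h1 (Set.toFinite _)).trans (h2.trans h3)

lemma nsq_Ψ (t : ℕ) (y : Fin n → ℤˣ) : nsq (Ψ Or G R m t y) = 1 := by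
  unfold Ψ
  rw [nsq_circAct]
  exact Pool.Agent.H116R3.RQ.initSt_norm m

open Classical in
lemma pw_eq (t : ℕ) (y : Fin n → ℤˣ) (S : Finset (Fin n)) :
    pw e Or G R m t y S =
      ∑ s : Fin m → Bool, if Ask (R t) (im e S) s then Ψ Or G R m t y s ^ 2 else 0 := by
  unfold pw nsq rs
  refine Finset.sum_congr rfl fun s _ => ?_
  split_ifs
  · rfl
  · simp

lemma pw_nonneg (t : ℕ) (y : Fin n → ℤˣ) (S : Finset (Fin n)) : 0 ≤ pw e Or G R m t y S :=
  nsq_nonneg _

lemma pw_mono (t : ℕ) (y : Fin n → ℤˣ) (S S' : Finset (Fin n)) (h : S ⊆ S') :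
    pw e Or G R m t y S ≤ pw e Or G R m t y S' := by
  classical
  rw [pw_eq, pw_eq]
  refine Finset.sum_le_sum fun s _ => ?_
  by_cases h1 : Ask (R t) (im e S) s
  · have h2 : Ask (R t) (im e S') s := Ask_mono (by
      rintro z ⟨i, hi, rfl⟩
      exact ⟨i, h hi, rfl⟩) h1
    rw [if_pos h1, if_pos h2]
  · rw [if_neg h1]
    split_ifs
    · exact sq_nonneg _
    · exact le_rfl

lemma pw_sum (t : ℕ) (y : Fin n → ℤˣ) (S : Finset (Fin n)) :
    pw e Or G R m t y S ≤ ∑ i ∈ S, pw e Or G R m t y {i} := by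
  classical
  simp only [pw_eq]
  rw [Finset.sum_comm]
  refine Finset.sum_le_sum fun s _ => ?_
  by_cases h1 : Ask (R t) (im e S) s
  · obtain ⟨q, k, h2, i, hi, h3⟩ := h1
    rw [if_pos ⟨q, k, h2, i, hi, h3⟩]
    have h4 : Ask (R t) (im e {i}) s := ⟨q, k, h2, i, Finset.mem_singleton_self i, h3⟩
    have h5 := Finset.single_le_sum (f := fun i =>
      if Ask (R t) (im e {i}) s then Ψ Or G R m t y s ^ 2 else 0) (fun j _ => by
        split_ifs
        · exact sq_nonneg _
        · exact le_rfl) hi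
    simp only [if_pos h4] at h5
    exact h5
  · rw [if_neg h1]
    refine Finset.sum_nonneg fun j _ => ?_
    split_ifs
    · exact sq_nonneg _
    · exact le_rfl

lemma pw_add (t : ℕ) (y : Fin n → ℤˣ) (S S' : Finset (Fin n)) :
    pw e Or G R m t y (S ∪ S') ≤ pw e Or G R m t y S + pw e Or G R m t y S' := by
  classical
  simp only [pw_eq]
  rw [← Finset.sum_add_distrib]
  refine Finset.sum_le_sum fun s _ => ?_
  have h0 := sq_nonneg (Ψ Or G R m t y s)
  by_cases h1 : Ask (R t) (im e (S ∪ S')) s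
  · rw [if_pos h1]
    obtain ⟨q, k, h2, i, hi, h3⟩ := h1
    rcases Finset.mem_union.1 hi with hi | hi
    · rw [if_pos ⟨q, k, h2, i, hi, h3⟩]
      split_ifs <;> linarith
    · have h4 : Ask (R t) (im e S') s := ⟨q, k, h2, i, hi, h3⟩
      rw [if_pos h4]
      split_ifs <;> linarith
  · rw [if_neg h1]
    split_ifs <;> linarith

lemma pw_tot (hinj : Function.Injective e) {L : ℕ} (hL : ∀ t, (R t).length ≤ L) (t : ℕ)
    (y : Fin n → ℤˣ) : ∑ i, pw e Or G R m t y {i} ≤ L := by
  classical
  simp only [pw_eq]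
  rw [Finset.sum_comm]
  have h1 : ∀ s : Fin m → Bool, (∑ i : Fin n, if Ask (R t) (im e {i}) s then
      Ψ Or G R m t y s ^ 2 else 0) ≤ L * Ψ Or G R m t y s ^ 2 := by
    intro s
    rw [← Finset.sum_filter, Finset.sum_const, nsmul_eq_mul]
    refine mul_le_mul_of_nonneg_right ?_ (sq_nonneg _)
    have h2 := card_ask e hinj (R t) s
    rw [Set.ncard_eq_toFinset_card'] at h2
    have h3 : (Finset.univ.filter fun i => Ask (R t) (im e {i}) s).card ≤ L := by
      refine le_trans (le_of_eq ?_) (h2.trans (hL t))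
      congr 1
      ext i
      simp
    exact_mod_cast h3
  refine (Finset.sum_le_sum fun s _ => h1 s).trans ?_
  rw [← Finset.mul_sum]
  have h2 : ∑ s, Ψ Or G R m t y s ^ 2 = 1 := nsq_Ψ Or G R t y
  rw [h2, mul_one]

/-- The acceptance probability. -/
noncomputable def fa (m r : ℕ) (y : Fin n → ℤˣ) : ℝ :=
  nsq (rs (fun s => rd s 0 = true) (Ψ Or G R m r y))

lemma fa_nonneg (m r : ℕ) (y : Fin n → ℤˣ) : 0 ≤ fa Or G R m r y := nsq_nonneg _

lemma fa_le (m r : ℕ) (y : Fin n → ℤˣ) : fa Or G R m r y ≤ 1 :=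
  (nsq_rs_le _ _).trans (le_of_eq (nsq_Ψ Or G R r y))

lemma fa_eq (m r : ℕ) (y : Fin n → ℤˣ) (l : List Gate) (hl : l = flat G R r ++ G r) :
    fa Or G R m r y =
      ∑ s : Fin m → Bool, if rd s 0 then circAct (Or y) l (initSt m) s ^ 2 else 0 := by
  classical
  subst hl
  unfold fa nsq rs Ψ
  refine Finset.sum_congr rfl fun s _ => ?_
  split_ifs
  · rfl
  · simp

/-- The hybrid system. -/
noncomputable def circSys (hinj : Function.Injective e)
    (hO : ∀ y y' z, Or y z ≠ Or y' z → ∃ i, e i = z ∧ y i ≠ y' i)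
    (he : ∀ i, (e i).length % 2 = 0) (hG : ∀ t, ∀ g ∈ G t, EFree g) (hR : ∀ t, Round (R t))
    {L : ℕ} (hL1 : 1 ≤ L) (hL : ∀ t, (R t).length ≤ L) (m r : ℕ) : Sys n r where
  p := pw e Or G R m
  f := fa Or G R m r
  L := L
  L1 := by exact_mod_cast hL1
  nonneg := pw_nonneg e Or G R
  mono := pw_mono e Or G R
  add := pw_add e Or G R
  sum := pw_sum e Or G R
  tot := pw_tot e Or G R hinj hL
  hyb := fun j _ y y' S => (rs_diff _ _ _).trans (add_le_add_right
    (Ψ_diff e Or G R hO he hG hR y y' j) _)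
  hybf := fun y y' => by
    have h1 := Ψ_diff (m := m) e Or G R hO he hG hR y y' r
    have h2 := rs_diff (fun s => rd s 0 = true) (Ψ Or G R m r y) (Ψ Or G R m r y')
    have h3 := rs_diff (fun s => rd s 0 = true) (Ψ Or G R m r y') (Ψ Or G R m r y)
    rw [nrm_symm] at h3
    have e1 : √(fa Or G R m r y) = nrm (rs (fun s => rd s 0 = true) (Ψ Or G R m r y)) := rfl
    have e2 : √(fa Or G R m r y') = nrm (rs (fun s => rd s 0 = true) (Ψ Or G R m r y')) := rfl
    rw [e1, e2, abs_le]
    constructor <;> linarith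

end Pool.Agent.TH682.WC
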