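import Pool.Agent.TH682.WC.Core

/-!
# The error of the adaptive simulation
-/

set_option autoImplicit false
set_option linter.unusedSectionVars false

namespace Pool.Agent.TH682.WC

open Finset Pool.Agent.H722R2.AA Pool.Agent.H746R2.AA Pool.Agent.H703R2.AA Pool.Agent.H703R2.AA.Pr
open Pool.Agent.W938.CQ Pool.Agent.W938.QM

variable {n T : ℕ} (Q : Sys n T) (τ : ℕ → ℝ)

lemma half_of_markov (F : (Fin n → ℤˣ) → ℝ) (hF : ∀ x, 0 ≤ F x) (c : ℝ) (hc : 0 < c)
    (h : Ex F ≤ c / 2) : 1 / 2 ≤ Pb (fun x => ¬ c ≤ F x) := by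
  have h1 := Pb_markov F hF c hc
  rw [Pb_not]
  have h2 : c * Pb (fun x => c ≤ F x) ≤ c * (1 / 2) := by linarith
  have h3 := le_of_mul_le_mul_left h2 hc
  linarith

lemma half_use {A B : (Fin n → ℤˣ) → Prop} {e : ℝ} (hA : 1 / 2 ≤ Pb A) (h : Pb A * Pb B ≤ e) :
    Pb B ≤ 2 * e := by
  have h0 := Pb_nonneg B
  nlinarith

lemma step {θ a ω s2 : ℕ → ℝ} {u : ℕ → ℕ} (hθ : ∀ t, 0 < θ t) (ha : ∀ t, 0 < a t)
    (hτ : ∀ t, 0 < τ t) (hω : ∀ t, 0 ≤ ω t) (hs2 : ∀ t, 0 < s2 t) (j : ℕ) (hj : j < T)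
    (hu : Q.L ≤ u j * θ j) (hlt : √(2 * u j * τ j) < a j)
    (hs : (j : ℝ) * Q.L * ∑ t ∈ range j, θ t ≤ s2 j)
    (hm : √(2 * u j * τ j) + 2 * ∑ t ∈ range j, a t + 2 * j * √(ω j) ≤ a j) :
    Pb (fun y => (∀ t < j, Gd Q τ θ a t y) ∧ ¬ Gd Q τ θ a j y) ≤
      ((n : ℝ) + 1) ^ u j * (2 * Real.exp (-(ω j ^ 2 / (4 * s2 j)))) := by
  classical
  have hu0 : (0 : ℝ) < u j := by
    by_contra hc
    have h1 : (u j : ℝ) * θ j ≤ 0 := mul_nonpos_of_nonpos_of_nonneg (not_lt.1 hc) (hθ j).le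
    have h2 := Q.L1
    linarith
  unfold Pb
  rw [avgK (K Q τ j) (K_congr Q τ j)]
  refine Ex_le_const fun b => ?_
  set H := K Q τ j b with hH
  set c : ℝ := 2 * u j * τ j with hc
  have hc0 : 0 < c := by have := hτ j; positivity
  set B : Finset (Fin n) → (Fin n → ℤˣ) → Prop := fun S z =>
    (∀ i ∈ S, i ∉ K Q τ (j + 1) b) ∧ (∀ t < j, Gd Q τ θ a t (spl H b z)) ∧
      a j ^ 2 < Q.p j (spl H b z) S with hB
  have key : ∀ S : Finset (Fin n), S.card ≤ u j →
      Pb (B S) ≤ 2 * Real.exp (-(ω j ^ 2 / (4 * s2 j))) := by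
    intro S hS
    by_cases hSK : ∀ i ∈ S, i ∉ K Q τ (j + 1) b
    · have hA : 1 / 2 ≤ Pb (fun z => ¬ c ≤ Q.p j (spl H b z) S) := by
        refine half_of_markov _ (fun z => Q.nonneg _ _ _) c hc0 ?_
        calc Ex (fun z => Q.p j (spl H b z) S)
            ≤ Ex (fun z => ∑ i ∈ S, Q.p j (spl H b z) {i}) := Ex_mono fun z => Q.sum _ _ _
          _ = ∑ i ∈ S, Ex (fun z => Q.p j (spl H b z) {i}) := Ex_sum _ _
          _ ≤ ∑ _i ∈ S, τ j := Finset.sum_le_sum fun i hi => (light Q τ (hSK i hi)).le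
          _ = S.card * τ j := by rw [Finset.sum_const, nsmul_eq_mul]
          _ ≤ u j * τ j := mul_le_mul_of_nonneg_right (Nat.cast_le.2 hS) (hτ j).le
          _ = c / 2 := by rw [hc]; ring
      refine half_use hA ?_
      refine far Q τ (fun t => (hθ t).le) (fun t => (ha t).le) j b _ (B S) (a j - √c) (ω j) (s2 j)
        (hω j) (hs2 j) (by linarith) hs (by linarith) (fun z hz => hz.2.1) ?_
      intro z z' hz hz'
      have h1 : a j ≤ √(Q.p j (spl H b z) S) := by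
        rw [← Real.sqrt_sq (ha j).le]
        exact Real.sqrt_le_sqrt hz.2.2.le
      have h2 : √(Q.p j (spl H b z') S) ≤ √c := Real.sqrt_le_sqrt (not_le.1 hz').le
      have h3 := Q.hyb j hj (spl H b z) (spl H b z') S
      linarith
    · have : ∀ z, ind (B S z) = 0 := by
        intro z
        unfold ind
        rw [if_neg (fun h => hSK h.1)]
      unfold Pb
      rw [Ex_congr this, Ex_const]
      positivity
  calc Ex (fun z => ind ((∀ t < j, Gd Q τ θ a t (spl H b z)) ∧ ¬ Gd Q τ θ a j (spl H b z)))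
      ≤ Ex (fun z => ∑ S ∈ (Finset.univ : Finset (Finset (Fin n))).filter (fun S => S.card ≤ u j),
          ind (B S z)) := by
        refine Ex_mono fun z => ?_
        by_cases h : (∀ t < j, Gd Q τ θ a t (spl H b z)) ∧ ¬ Gd Q τ θ a j (spl H b z)
        · have e1 : ind ((∀ t < j, Gd Q τ θ a t (spl H b z)) ∧ ¬ Gd Q τ θ a j (spl H b z)) = 1 := by
            unfold ind
            rw [if_pos h]
          have hS1 : (U Q τ θ j (spl H b z)).card ≤ u j := by
            have h1 := (card_U Q τ (θ := θ) j (spl H b z)).trans hu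
            exact_mod_cast le_of_mul_le_mul_right h1 (hθ j)
          have hB1 : B (U Q τ θ j (spl H b z)) z := by
            refine ⟨fun i hi => ?_, h.1, not_le.1 h.2⟩
            have h2 := (Finset.mem_filter.1 hi).2.1
            rwa [hH, K_succ_spl] at h2
          have e2 : ind (B (U Q τ θ j (spl H b z)) z) = 1 := by
            unfold ind
            rw [if_pos hB1]
          rw [e1, ← e2]
          exact Finset.single_le_sum (f := fun S => ind (B S z)) (fun S _ => ind_nonneg _)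
            (Finset.mem_filter.2 ⟨Finset.mem_univ _, hS1⟩)
        · have e1 : ind ((∀ t < j, Gd Q τ θ a t (spl H b z)) ∧ ¬ Gd Q τ θ a j (spl H b z)) = 0 := by
            unfold ind
            rw [if_neg h]
          rw [e1]
          exact Finset.sum_nonneg fun S _ => ind_nonneg _
    _ = ∑ S ∈ (Finset.univ : Finset (Finset (Fin n))).filter (fun S => S.card ≤ u j),
          Pb (B S) := Ex_sum _ _
    _ ≤ ∑ _S ∈ (Finset.univ : Finset (Finset (Fin n))).filter (fun S => S.card ≤ u j),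
          2 * Real.exp (-(ω j ^ 2 / (4 * s2 j))) :=
        Finset.sum_le_sum fun S hS => key S (Finset.mem_filter.1 hS).2
    _ = (((Finset.univ : Finset (Finset (Fin n))).filter fun S => S.card ≤ u j).card : ℝ) *
          (2 * Real.exp (-(ω j ^ 2 / (4 * s2 j)))) := by rw [Finset.sum_const, nsmul_eq_mul]
    _ ≤ _ := mul_le_mul_of_nonneg_right (card_small _) (by positivity)

/-- The decision of the simulation. -/
noncomputable def Dc (mid : ℝ) (y : Fin n → ℤˣ) : Prop :=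
  1 / 2 ≤ Pb (fun z => mid ≤ Q.f (spl (K Q τ T y) y z))

lemma Dc_congr {mid : ℝ} {y y' : Fin n → ℤˣ} (h : ∀ i ∈ K Q τ T y, y' i = y i) :
    Dc Q τ mid y' ↔ Dc Q τ mid y := by
  unfold Dc
  rw [K_congr Q τ T y y' h]
  have : ∀ z, spl (K Q τ T y) y' z = spl (K Q τ T y) y z := fun z => spl_congr h z
  simp only [this]

/-- The simulation is wrong. -/
def Er (mid α β : ℝ) (y : Fin n → ℤˣ) : Prop :=
  (α ≤ Q.f y ∧ ¬ Dc Q τ mid y) ∨ (Q.f y ≤ β ∧ Dc Q τ mid y)

theorem error {θ a ω s2 : ℕ → ℝ} {u : ℕ → ℕ} (hθ : ∀ t, 0 < θ t) (ha : ∀ t, 0 < a t)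
    (hτ : ∀ t, 0 < τ t) (hω : ∀ t, 0 ≤ ω t) (hs2 : ∀ t, 0 < s2 t)
    (hu : ∀ j < T, Q.L ≤ u j * θ j) (hlt : ∀ j < T, √(2 * u j * τ j) < a j)
    (hs : ∀ j ≤ T, (j : ℝ) * Q.L * ∑ t ∈ range j, θ t ≤ s2 j)
    (hm : ∀ j < T, √(2 * u j * τ j) + 2 * ∑ t ∈ range j, a t + 2 * j * √(ω j) ≤ a j)
    (mid α β Δ : ℝ) (hΔ0 : 0 < Δ) (h1 : √mid + Δ ≤ √α) (h2 : √β + Δ ≤ √mid)
    (hΔ : 2 * ∑ t ∈ range T, a t + 2 * T * √(ω T) ≤ Δ) :
    Pb (Er Q τ mid α β) ≤
      ∑ j ∈ range T, ((n : ℝ) + 1) ^ u j * (2 * Real.exp (-(ω j ^ 2 / (4 * s2 j)))) +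
        2 * Real.exp (-(ω T ^ 2 / (4 * s2 T))) := by
  classical
  set G : (Fin n → ℤˣ) → Prop := fun y => ∀ t < T, Gd Q τ θ a t y with hG
  have hfin : Pb (fun y => G y ∧ Er Q τ mid α β y) ≤ 2 * Real.exp (-(ω T ^ 2 / (4 * s2 T))) := by
    unfold Pb
    rw [avgK (K Q τ T) (K_congr Q τ T)]
    refine Ex_le_const fun b => ?_
    set H := K Q τ T b with hH
    have hD : ∀ z, Dc Q τ mid (spl H b z) ↔ Dc Q τ mid b := fun z =>
      Dc_congr Q τ fun i hi => by unfold spl; rw [if_pos hi]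
    by_cases hb : Dc Q τ mid b
    · have hA : 1 / 2 ≤ Pb (fun z => mid ≤ Q.f (spl H b z)) := hb
      have h3 : Pb (fun z => G (spl H b z) ∧ Q.f (spl H b z) ≤ β) ≤
          2 * Real.exp (-(ω T ^ 2 / (4 * s2 T))) := by
        refine half_use hA ?_
        refine far Q τ (fun t => (hθ t).le) (fun t => (ha t).le) T b _ _ Δ (ω T) (s2 T)
          (hω T) (hs2 T) hΔ0 (hs T le_rfl) hΔ (fun z hz => hz.1) ?_
        intro z z' hz hz'
        have h4 := (abs_le.1 (Q.hybf (spl H b z) (spl H b z'))).1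
        have h5 := Real.sqrt_le_sqrt hz.2
        have h6 := Real.sqrt_le_sqrt hz'
        linarith
      refine le_trans (Ex_mono fun z => ind_mono ?_) h3
      rintro ⟨h4, h5⟩
      rcases h5 with h5 | h5
      · exact absurd ((hD z).2 hb) h5.2
      · exact ⟨h4, h5.1⟩
    · have hA : 1 / 2 ≤ Pb (fun z => ¬ mid ≤ Q.f (spl H b z)) := by
        rw [Pb_not]
        have : Pb (fun z => mid ≤ Q.f (spl H b z)) < 1 / 2 := not_le.1 hb
        linarith
      have h3 : Pb (fun z => G (spl H b z) ∧ α ≤ Q.f (spl H b z)) ≤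
          2 * Real.exp (-(ω T ^ 2 / (4 * s2 T))) := by
        refine half_use hA ?_
        refine far Q τ (fun t => (hθ t).le) (fun t => (ha t).le) T b _ _ Δ (ω T) (s2 T)
          (hω T) (hs2 T) hΔ0 (hs T le_rfl) hΔ (fun z hz => hz.1) ?_
        intro z z' hz hz'
        have h4 := (abs_le.1 (Q.hybf (spl H b z) (spl H b z'))).2
        have h5 := Real.sqrt_le_sqrt hz.2
        have h6 := Real.sqrt_le_sqrt (not_le.1 hz').le
        linarith
      refine le_trans (Ex_mono fun z => ind_mono ?_) h3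
      rintro ⟨h4, h5⟩
      rcases h5 with h5 | h5
      · exact ⟨h4, h5.1⟩
      · exact absurd ((hD z).1 h5.2) hb
  have hsplit : Pb (Er Q τ mid α β) ≤
      (∑ j ∈ range T, Pb (fun y => (∀ t < j, Gd Q τ θ a t y) ∧ ¬ Gd Q τ θ a j y)) +
        Pb (fun y => G y ∧ Er Q τ mid α β y) := by
    unfold Pb
    rw [← Ex_sum, ← Ex_add]
    refine Ex_mono fun y => ?_
    by_cases hE : Er Q τ mid α β y
    · have e1 : ind (Er Q τ mid α β y) = 1 := by unfold ind; rw [if_pos hE]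
      rw [e1]
      by_cases hGy : G y
      · have e2 : ind (G y ∧ Er Q τ mid α β y) = 1 := by unfold ind; rw [if_pos ⟨hGy, hE⟩]
        rw [e2]
        have := Finset.sum_nonneg (s := range T) (f := fun j =>
          ind ((∀ t < j, Gd Q τ θ a t y) ∧ ¬ Gd Q τ θ a j y)) fun j _ => ind_nonneg _
        linarith
      · have hex : ∃ j, j < T ∧ ¬ Gd Q τ θ a j y := by
          by_contra hc
          push Not at hc
          exact hGy hc
        have hsp := Nat.find_spec hex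
        have hmin : ∀ t < Nat.find hex, Gd Q τ θ a t y := by
          intro t ht
          by_contra hc
          exact Nat.find_min hex ht ⟨ht.trans hsp.1, hc⟩
        have e2 : ind ((∀ t < Nat.find hex, Gd Q τ θ a t y) ∧ ¬ Gd Q τ θ a (Nat.find hex) y) = 1 := by
          unfold ind
          rw [if_pos ⟨hmin, hsp.2⟩]
        have h3 := Finset.single_le_sum (f := fun j =>
          ind ((∀ t < j, Gd Q τ θ a t y) ∧ ¬ Gd Q τ θ a j y)) (fun j _ => ind_nonneg _)
          (mem_range.2 hsp.1)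
        rw [e2] at h3
        have h4 := ind_nonneg (G y ∧ Er Q τ mid α β y)
        linarith
    · have e1 : ind (Er Q τ mid α β y) = 0 := by unfold ind; rw [if_neg hE]
      rw [e1]
      exact add_nonneg (Finset.sum_nonneg fun j _ => ind_nonneg _) (ind_nonneg _)
  refine hsplit.trans (add_le_add (Finset.sum_le_sum fun j hj => ?_) hfin)
  rw [mem_range] at hj
  exact step Q τ hθ ha hτ hω hs2 j hj (hu j hj) (hlt j hj) (hs j hj.le) (hm j hj)

end Pool.Agent.TH682.WC
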