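import Pool.Agent.W938.QX.Defs

/-!
# Quantum circuits with few rounds of questions of even length
-/

set_option autoImplicit false

namespace Pool.Agent.TH682.WC

open Pool.Agent.NPC Pool.Agent.H620R2.Gauge Pool.Agent.W938.Hyb

/-- The gate does not ask the oracle about strings of even length: if it is an oracle gate, then
its question is a string of odd length. -/
def EFree (g : Gate) : Prop := ∀ q k, g = Sum.inr (true, q, k) → q.length % 2 = 1

/-- The circuit `l` asks at most `r` rounds of parallel questions about strings of even length:
it consists of at most `r` rounds (of arbitrarily many gates each), and before, between and after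
them there are only gates which do not ask about strings of even length. -/
def Rounds : ℕ → List Gate → Prop
  | 0, l => ∀ g ∈ l, EFree g
  | r + 1, l => ∃ G R l' : List Gate, l = G ++ R ++ l' ∧ (∀ g ∈ G, EFree g) ∧ Round R ∧ Rounds r l'

/-- The promise problem `(Y, N)` (the strings in `Y` are to be accepted and the strings in `N` are to
be rejected) is decided by quantum circuits which ask, on inputs of length `n`, at most `r n` rounds
of parallel questions about strings of even length: for the input `x` one computes first, in
polynomial time relative to `O`, a string `F x`, and then, in polynomial time, the circuit
`C (F x)`, which accepts with probability at least `c` if `x` is in `Y` and with probability at most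
`s` if `x` is in `N`. The number of the gates is only bounded by a polynomial, each round may
consist of polynomially many questions, and the questions about strings of odd length are not
restricted to rounds. -/
def IsBQPR (r : ℕ → ℕ) (c s : ℝ) (O : Oracle) (Y N : Set (List Bool)) : Prop :=
  ∃ (F : List Bool → List Bool) (C : List Bool → List Unit × List Gate),
    IsFP O F ∧ PolyTime (fun z => bits (C z)) ∧
    ∀ x, (x ∈ Y → Rounds (r x.length) (C (F x)).2 ∧ c ≤ accProb O (C (F x))) ∧
      (x ∈ N → Rounds (r x.length) (C (F x)).2 ∧ accProb O (C (F x)) ≤ s)

/-- The promise problem `(Y, N)` is decided deterministically relative to `O` within a time which is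
polynomial in `n + t n` for inputs of length `n`: a function which is computable in polynomial time
relative to `O` decides every input `x` correctly if it gets it together with any string of length
at least `t |x|`. -/
def IsDTime (t : ℕ → ℕ) (O : Oracle) (Y N : Set (List Bool)) : Prop :=
  ∃ V : List Bool → List Bool, IsFP O V ∧ ∀ x w : List Bool, t x.length ≤ w.length →
    (x ∈ Y → V (pairBits x w) = [true]) ∧ (x ∈ N → V (pairBits x w) = [false])

end Pool.Agent.TH682.WC
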