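import Pool.Agent.TH682.WC.Num
import Pool.Agent.TH682.WC.CircR
import Pool.Agent.W938.QX.Dev

/-!
# The estimate of the acceptance probability relative to a random oracle
-/

set_option autoImplicit false
set_option linter.unusedSectionVars false

namespace Pool.Agent.TH682.WC

open Finset Pool.Agent.NPC Pool.Agent.H620R2.Gauge Pool.Agent.W938.Hyb Pool.Agent.W938.CQ
open Pool.Agent.W938.QM (ub ub_bx spl)
open Pool.Agent.H722R2.AA Pool.Agent.H746R2.AA Pool.Agent.H703R2.AA Pool.Agent.H703R2.AA.Pr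
open Pool.Agent.H628R3.RO (randomOracle)
open Pool.Agent.W938.QX (Ev mem_Ev card_Ev mix mix_even mix_odd)

lemma K_succ_congr {n T : ℕ} (Q : Sys n T) (τ : ℕ → ℝ) (j : ℕ) (y y' : Fin n → ℤˣ)
    (h : ∀ i ∈ K Q τ j y, y' i = y i) : K Q τ (j + 1) y' = K Q τ (j + 1) y := by
  have h2 := K_congr Q τ j y y' h
  rw [K, K, h2]
  congr 1
  ext i
  simp only [Finset.mem_filter, Finset.mem_univ, true_and]
  have : ∀ z, spl (K Q τ j y) y' z = spl (K Q τ j y) y z := fun z => spl_congr h z
  simp only [this]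

theorem orcR (B : Oracle) (c : List Unit × List Gate) (k r q h L : ℕ) (hk : 1 ≤ k)
    (hR : Rounds r c.2) (hL1 : 1 ≤ L) (hL : c.2.length ≤ L)
    (hq : ∀ q' k', Sum.inr (true, q', k') ∈ c.2 → q'.length ≤ q) :
    ∃ (Kf : ℕ → Oracle → Finset (List Bool)) (es : Oracle → ℕ),
      (∀ A, Kf 0 A = ∅) ∧
      (∀ j A A', (∀ z ∈ Kf j A, A' z = A z) → Kf (j + 1) A' = Kf (j + 1) A) ∧
      (∀ j A, Kf j A ⊆ Kf (j + 1) A) ∧ (∀ j A, Kf j A ⊆ Ev q) ∧
      (∀ A, (Kf r A).card ≤ NQ r k L q (h + k + r + 2)) ∧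
      (∀ A A', (∀ z ∈ Kf r A, A' z = A z) → es A' = es A) ∧ (∀ A, es A ≤ 2 * k) ∧
      MeasurableSet {A : Oracle | ¬ |accProb (mix A B) c - es A / (2 * k)| ≤ 1 / k} ∧
      randomOracle.real {A : Oracle | ¬ |accProb (mix A B) c - es A / (2 * k)| ≤ 1 / k} ≤
        (1 / 2) ^ h := by
  classical
  obtain ⟨G, R, hG, hRR, hRL, hdec⟩ := rounds_decomp r c.2 hR
  have hcard := card_Ev q
  set N := (Ev q).card with hN
  set e : Fin N → List Bool := fun i => ((Ev q).equivFin.symm i).1 with he
  have hinj : Function.Injective e := by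
    intro i j hij
    exact (Ev q).equivFin.symm.injective (Subtype.ext hij)
  have heS : ∀ i, e i ∈ Ev q := fun i => ((Ev q).equivFin.symm i).2
  have heven : ∀ i, (e i).length % 2 = 0 := fun i => (mem_Ev.1 (heS i)).2
  set AO : (Fin N → Bool) → Oracle := fun y z =>
    if h : z ∈ Ev q then y ((Ev q).equivFin ⟨z, h⟩) else false with hAO
  have hOA : ∀ A : Oracle, ∀ z ∈ Ev q, AO (fun i => A (e i)) z = A z := by
    intro A z hz
    simp only [hAO, dif_pos hz, he, Equiv.symm_apply_apply]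
  set Or : (Fin N → ℤˣ) → Oracle := fun y => mix (AO (bx y)) B with hOr
  have hO : ∀ y y' z, Or y z ≠ Or y' z → ∃ i, e i = z ∧ y i ≠ y' i := by
    intro y y' z hz
    have h1 : z.length % 2 = 0 := by
      by_contra hc
      apply hz
      simp only [hOr]
      rw [mix_odd hc, mix_odd hc]
    simp only [hOr] at hz
    rw [mix_even h1, mix_even h1] at hz
    by_cases h2 : z ∈ Ev q
    · refine ⟨(Ev q).equivFin ⟨z, h2⟩, ?_, ?_⟩
      · simp only [he, Equiv.symm_apply_apply]
      · intro h3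
        apply hz
        simp only [hAO, dif_pos h2]
        unfold bx
        rw [h3]
    · exfalso
      apply hz
      simp only [hAO, dif_neg h2]
  set Q : Sys N r := circSys e Or G R hinj hO heven hG hRR hL1 (fun t => (hRL t).trans hL)
    c.1.length r with hQ
  have hf : ∀ y, Q.f y = accProb (Or y) c := fun y => fa_eq Or G R c.1.length r y c.2 hdec
  obtain ⟨τ, hK, hP⟩ := est_prob Q k L q h hk hL1 rfl hcard (fun y => fa_nonneg Or G R _ _ y)
    (fun y => fa_le Or G R _ _ y)
  set ya : Oracle → Fin N → ℤˣ := fun A i => ub (A (e i)) with hya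
  have hagree : ∀ j A A', (∀ z ∈ (K Q τ j (ya A)).image e, A' z = A z) →
      ∀ i ∈ K Q τ j (ya A), ya A' i = ya A i := by
    intro j A A' h1 i hi
    simp only [hya]
    rw [h1 (e i) (Finset.mem_image_of_mem e hi)]
  set P : (Fin N → Bool) → Prop := fun y =>
    ¬ |accProb (mix (AO y) B) c - est Q τ k (fun i => ub (y i)) / (2 * k)| ≤ 1 / k with hPd
  have hacc : ∀ A : Oracle, accProb (mix A B) c = accProb (mix (AO fun i => A (e i)) B) c := by
    intro A
    unfold accProb
    rw [circAct_local (A' := mix (AO fun i => A (e i)) B) c.2 (fun q' k' hk' z hz => by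
      by_cases h1 : z.length % 2 = 0
      · rw [mix_even h1, mix_even h1]
        exact (hOA A z (mem_Ev.2 ⟨by rw [hz]; exact hq q' k' hk', h1⟩)).symm
      · rw [mix_odd h1, mix_odd h1])]
  have hW : {A : Oracle | ¬ |accProb (mix A B) c - est Q τ k (ya A) / (2 * k)| ≤ 1 / k} =
      {A : List Bool → Bool | P (fun i => A (e i))} := by
    ext A
    simp only [Set.mem_ofPred_eq, hPd, hya]
    rw [hacc A]
  obtain ⟨hm, hp⟩ := Pool.Agent.H54.RQ.c1 N e hinj P (fun _ => Classical.propDecidable _)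
  refine ⟨fun j A => (K Q τ j (ya A)).image e, fun A => est Q τ k (ya A), ?_, ?_, ?_, ?_, ?_, ?_,
    ?_, ?_, ?_⟩
  · intro A
    simp [K]
  · intro j A A' h1
    have h2 := K_succ_congr Q τ j (ya A) (ya A') (hagree j A A' h1)
    simp only [h2]
  · intro j A
    exact Finset.image_subset_image (K_sub Q τ j (ya A))
  · intro j A z hz
    obtain ⟨i, -, rfl⟩ := Finset.mem_image.1 hz
    exact heS i
  · intro A
    exact Finset.card_image_le.trans (hK _)
  · intro A A' h1
    exact est_congr Q τ k (hagree r A A' h1)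
  · intro A
    exact est_le Q τ k _
  · rw [hW]
    exact hm
  · rw [hW, hp, ← EE_bx]
    refine le_trans (le_of_eq ?_) hP
    unfold Pb
    refine Ex_congr fun y => ?_
    have e1 : (fun i => ub (bx y i)) = y := funext fun i => ub_bx y i
    simp only [hPd]
    rw [e1, hf]
    unfold ind
    split_ifs <;> rfl

end Pool.Agent.TH682.WC
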