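import Pool.Agent.TH682.WC.Sim
import Pool.Agent.TH682.WC.OrcR
import Pool.Agent.TH682.WC.Bound

/-!
# Acceptance probabilities of quantum circuits with few rounds of questions to a random oracle
-/

set_option autoImplicit false
set_option linter.unusedSectionVars false

namespace Pool.Agent.TH682.WC

open Pool.Agent.NPC Pool.Agent.H620R2.Gauge Pool.Agent.W938.Hyb
open Pool.Agent.H628R3.RO (randomOracle)
open Pool.Agent.H703R2.AA (nsq nsq_nonneg)
open Pool.Agent.W938.QM (bc)
open Pool.Agent.W938.QX (Ev mem_Ev mix mix_even mix_odd enc enc_odd enc_long poly_rep cut cut_cut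
  exists_self)

lemma sizes (c : List Unit × List Gate) (j : List Unit) :
    c.2.length + 2 ≤ (bits (c, j)).length ∧ j.length ≤ (bits (c, j)).length ∧
      ∀ q' k', Sum.inr (true, q', k') ∈ c.2 → q'.length ≤ (bits (c, j)).length := by
  have h1 : (bits (c, j)).length = sz c + sz j + 1 := by rw [bits_length, sz_pair]
  have h2 : sz c = sz c.1 + sz c.2 + 1 := by
    obtain ⟨a, b⟩ := c
    exact sz_pair a b
  have h3 := length_lt_sz c.2
  have h4 := length_lt_sz j
  refine ⟨by omega, by omega, fun q' k' h => ?_⟩
  have h5 := sz_le_of_mem h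
  have h6 := length_lt_sz q'
  rw [sz_inr, sz_pair, sz_pair] at h5
  omega

lemma acc_nonneg (A : Oracle) (c : List Unit × List Gate) : 0 ≤ accProb A c := by
  unfold accProb
  refine Finset.sum_nonneg fun s _ => ?_
  split_ifs
  · exact sq_nonneg _
  · exact le_rfl

lemma acc_le_one (A : Oracle) (c : List Unit × List Gate) : accProb A c ≤ 1 := by
  have h1 : nsq (circAct A c.2 (initSt c.1.length)) = 1 := by
    rw [nsq_circAct]
    exact Pool.Agent.H116R3.RQ.initSt_norm _
  rw [← h1]
  unfold accProb nsq
  refine Finset.sum_le_sum fun s _ => ?_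
  split_ifs
  · exact le_rfl
  · exact sq_nonneg _

lemma acc_cut (A B : Oracle) (c : List Unit × List Gate) (n : ℕ)
    (h : ∀ q' k', Sum.inr (true, q', k') ∈ c.2 → q'.length < n) :
    accProb (mix A (cut B n)) c = accProb (mix A B) c := by
  unfold accProb
  rw [circAct_local (A := mix A (cut B n)) (A' := mix A B) c.2 (fun q' k' hk' z hz => by
    unfold Pool.Agent.W938.QX.mix cut
    rw [if_pos (show z.length < n by rw [hz]; exact h q' k' hk')])]

theorem data (B : Oracle) (x : List Bool) :
    ∃ (nd : List Bool → List Bool) (es : Oracle → ℕ) (Bad : Set Oracle),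
      (∀ w, (nd w).length ≤ 3 * x.length + 1) ∧
      (∀ w, (nd w).head? = some false → (nd w).tail.length % 2 = 0) ∧
      randomOracle.real Bad ≤ (1 / 2) ^ (2 * x.length + 2) ∧
      ∀ (c : List Unit × List Gate) (j : List Unit) (r : ℕ), x = bits (c, j) → 1 ≤ j.length →
        Rounds r c.2 →
        (∀ (A : Oracle) (s : ℕ), (x.length + 2) ^ (25 * (r + 1) ^ 2) ≤ s →
          nd ((stp nd A)^[s] []) = true :: List.replicate (es A) true) ∧
        ∀ A, A ∉ Bad → |accProb (mix A B) c - es A / (2 * j.length)| ≤ 1 / j.length := by
  classical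
  by_cases h : ∃ (c : List Unit × List Gate) (j : List Unit), x = bits (c, j) ∧ 1 ≤ j.length ∧
      ∃ r, Rounds r c.2
  · obtain ⟨c, j, rfl, hj, hex⟩ := h
    obtain ⟨s1, s2, s3⟩ := sizes c j
    set n := (bits (c, j)).length with hn
    obtain ⟨Kf, es, k0, k1, k2, k3, k4, k5, k6, k7, k8⟩ :=
      orcR B c j.length (Nat.find hex) n (2 * n + 2) (c.2.length + 1) hj (Nat.find_spec hex)
        (by omega) (by omega) s3
    obtain ⟨nd, n1, n2, n3⟩ := stepper Kf (Nat.find hex) es n j.length _ k0 k1 k2 k3 k4 k5 k6
    refine ⟨nd, es, {A : Oracle | ¬ |accProb (mix A B) c - es A / (2 * j.length)| ≤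
      1 / j.length}, fun w => (n1 w).trans (by omega), n2, k8, ?_⟩
    intro c' j' r hx _ hr
    have h1 := bits_injective hx
    rw [Prod.mk.injEq] at h1
    obtain ⟨rfl, rfl⟩ := h1
    refine ⟨fun A s hs => n3 A s ?_, fun A hA => ?_⟩
    · refine le_trans ?_ hs
      refine (NQ_le n (Nat.find hex) j.length (c.2.length + 1) n _ s2 (by omega) le_rfl
        (by omega)).trans ?_
      refine Nat.pow_le_pow_right (by omega) ?_
      have h2 : Nat.find hex ≤ r := Nat.find_min' hex hr
      gcongr
    · by_contra hc
      exact hA hc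
  · refine ⟨fun _ => [true], fun _ => 0, ∅, fun w => by simp, fun w hw => by simp at hw,
      by simp, ?_⟩
    intro c j r hx hj hr
    exact absurd ⟨c, j, hx, hj, r, hr⟩ h

lemma lookup_map (f : List Bool → ℕ) (x : List Bool) : ∀ l : List (List Bool),
    (l.map fun y => (y, f y)).lookup x = if x ∈ l then some (f x) else none
  | [] => by simp
  | y :: l => by
    rw [List.map_cons, List.lookup_cons, lookup_map f x l]
    by_cases h : x = y
    · subst h
      simp
    · have h1 : (x == y) = false := by simpa using h
      rw [h1]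
      simp [h]

theorem main (B₀ : Oracle) : ∃ B : Oracle, (∀ z, B (pairBits (false :: z) []) = B₀ z) ∧
    ∀ᵐ A ∂randomOracle, ∃ G : List Bool → List Bool, IsFP (mix A B) G ∧
    ∀ (c : List Unit × List Gate) (k : List Unit) (r : ℕ) (s : List Bool),
      1 ≤ k.length → Rounds r c.2 →
      ((bits (c, k)).length + 2) ^ (25 * (r + 1) ^ 2) ≤ s.length →
      |accProb (mix A B) c - (G (pairBits (bits (c, k)) s)).length / (2 * k.length)| ≤
        1 / k.length := by
  classical
  choose nd es Bad hlen heven hbad hmain using data
  set P : Polynomial ℕ := Polynomial.C 3 * Polynomial.X + 1 with hP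
  have hPe : ∀ n, P.eval n = 3 * n + 1 := by
    intro n
    simp [hP]
  obtain ⟨ι, hι⟩ := Countable.exists_injective_nat (List (List Bool × ℕ))
  set κ : List (List Bool × ℕ) → List Bool := fun g => List.replicate (ι g) true with hκ
  have hκi : Function.Injective κ := by
    intro g g' h
    apply hι
    have := congrArg List.length h
    simpa [hκ] using this
  set nd' : List (List Bool × ℕ) → Oracle → List Bool → List Bool → List Bool := fun g B x =>
    match g.lookup x with
    | some i => fun _ => true :: List.replicate (min i (3 * x.length)) true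
    | none => nd B x with hnd'
  have hlen' : ∀ g B x w, (nd' g B x w).length ≤ 3 * x.length + 1 := by
    intro g B x w
    simp only [hnd']
    cases g.lookup x with
    | none => exact hlen B x w
    | some i => simp
  have heven' : ∀ g B x w, (nd' g B x w).head? = some false →
      (nd' g B x w).tail.length % 2 = 0 := by
    intro g B x w
    simp only [hnd']
    cases g.lookup x with
    | none => exact heven B x w
    | some i => simp
  have hκ0 : ∀ g z, κ g ≠ false :: z := by
    intro g z h
    have h1 : false ∈ κ g := by rw [h]; exact List.mem_cons_self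
    have h2 := List.eq_of_mem_replicate h1
    exact absurd h2 (by simp)
  obtain ⟨B, hBF⟩ := exists_self (fun u B => decide ((∃ z, u = pairBits (false :: z) [] ∧
    B₀ z = true) ∨ ∃ (g : List (List Bool × ℕ))
    (w x : List Bool) (i : ℕ), u = enc (κ g) P (pairBits w (List.replicate i true)) x ∧
      (pairBits (nd' g (cut B (P.eval x.length + 1)) x w) []).getD i false = true))
  have hBs : ∀ g x w i, B (enc (κ g) P (pairBits w (List.replicate i true)) x) =
      (pairBits (nd' g (cut B (P.eval x.length + 1)) x w) []).getD i false := by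
    intro g x w i
    rw [hBF, Bool.eq_iff_iff, decide_eq_true_eq]
    have hcut : cut (cut B (enc (κ g) P (pairBits w (List.replicate i true)) x).length)
        (P.eval x.length + 1) = cut B (P.eval x.length + 1) := cut_cut B (enc_long _ _ _ _)
    constructor
    · rintro (⟨z, h1, -⟩ | ⟨g', w', x', i', h1, h2⟩)
      · have h3 := congrArg unpair h1
        unfold enc at h3
        rw [unpair_pairBits, unpair_pairBits, Prod.mk.injEq] at h3
        exact absurd h3.1 (hκ0 g z)
      have h3 := congrArg unpair h1
      unfold enc at h3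
      rw [unpair_pairBits, unpair_pairBits, Prod.mk.injEq] at h3
      have h4 := congrArg unpair h3.2
      rw [unpair_pairBits, unpair_pairBits, Prod.mk.injEq] at h4
      have h5 := congrArg unpair h4.2
      rw [unpair_pairBits, unpair_pairBits, Prod.mk.injEq] at h5
      have h6 := hκi h3.1
      obtain ⟨h7, -⟩ := h5
      obtain ⟨h8, -⟩ := h4
      have h9 := congrArg unpair h8
      rw [unpair_pairBits, unpair_pairBits, Prod.mk.injEq] at h9
      obtain ⟨h10, h11⟩ := h9
      have h12 : i = i' := by
        have := congrArg List.length h11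
        simpa using this
      subst h6 h7 h10 h12
      rw [hcut] at h2
      exact h2
    · intro h
      refine Or.inr ⟨g, w, x, i, rfl, ?_⟩
      rw [hcut]
      exact h
  have hB0 : ∀ z, B (pairBits (false :: z) []) = B₀ z := by
    intro z
    rw [hBF, Bool.eq_iff_iff, decide_eq_true_eq]
    constructor
    · rintro (⟨z', h1, h2⟩ | ⟨g', w', x', i', h1, -⟩)
      · have h3 := congrArg unpair h1
        rw [unpair_pairBits, unpair_pairBits, Prod.mk.injEq, List.cons.injEq] at h3
        rw [h3.1.2]
        exact h2
      · have h3 := congrArg unpair h1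
        unfold enc at h3
        rw [unpair_pairBits, unpair_pairBits, Prod.mk.injEq] at h3
        exact absurd h3.1.symm (hκ0 g' z)
    · intro h
      exact Or.inl ⟨z, rfl, h⟩
  refine ⟨B, hB0, ?_⟩
  have hae : ∀ᵐ A ∂randomOracle,
      {x | A ∈ Bad (cut B (P.eval x.length + 1)) x}.Finite :=
    bc (fun x => Bad (cut B (P.eval x.length + 1)) x) (fun x => hbad _ x)
  filter_upwards [hae] with A hA
  set E : Finset (List Bool) := hA.toFinset with hE
  have hEm : ∀ x, x ∈ E ↔ A ∈ Bad (cut B (P.eval x.length + 1)) x := fun x => hA.mem_toFinset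
  set val : List Bool → ℕ := fun x =>
    match unbits ((List Unit × List Gate) × List Unit) x with
    | some (c, k) => ⌊2 * (k.length : ℝ) * accProb (mix A B) c⌋₊
    | none => 0 with hval
  set g : List (List Bool × ℕ) := E.toList.map fun x => (x, val x) with hg
  have hlook : ∀ x, g.lookup x = if x ∈ E then some (val x) else none := by
    intro x
    rw [hg, lookup_map]
    simp only [Finset.mem_toList]
  have hfp := sim A B (κ g) P (fun x => nd' g (cut B (P.eval x.length + 1)) x)
    (fun x w => by rw [hPe]; exact hlen' g _ x w) (fun x w => heven' g _ x w)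
    (fun x w i => hBs g x w i)
  refine ⟨_, (IsFP.of_poly (A := mix A B) (F := fun u : List Bool => u.tail)
    (NPC.Poly.tail NPC.Poly.id)).comp hfp, ?_⟩
  intro c k r s hk hr hs
  simp only [unpair_pairBits]
  obtain ⟨s1, s2, s3⟩ := sizes c k
  obtain ⟨x, hx⟩ : ∃ x, x = bits (c, k) := ⟨_, rfl⟩
  rw [← hx] at s1 s2 s3 hs ⊢
  have hk' : (1 : ℝ) ≤ k.length := by exact_mod_cast hk
  have hk0 : (0 : ℝ) < k.length := by linarith
  have hsl : (x.length + 2) ^ (25 * (r + 1) ^ 2) ≤ (pairBits x s).length := by
    refine hs.trans ?_
    rw [length_pairBits]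
    omega
  by_cases hxE : x ∈ E
  · have h1 : nd' g (cut B (P.eval x.length + 1)) x =
        fun _ => true :: List.replicate (min (val x) (3 * x.length)) true := by
      simp only [hnd', hlook x, if_pos hxE]
    rw [h1]
    have h2 : val x = ⌊2 * (k.length : ℝ) * accProb (mix A B) c⌋₊ := by
      simp only [hval, hx, unbits_bits]
    have h3 : val x ≤ 2 * k.length := by
      rw [h2]
      refine Nat.floor_le_of_le ?_
      have h4 := acc_le_one (mix A B) c
      push_cast
      exact mul_le_of_le_one_right (by positivity) h4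
    have h4 : min (val x) (3 * x.length) = val x := min_eq_left (by omega)
    rw [h4, List.tail_cons, List.length_replicate, h2]
    have h5 : 0 ≤ 2 * (k.length : ℝ) * accProb (mix A B) c := by
      have := acc_nonneg (mix A B) c
      positivity
    have h6 := Nat.floor_le h5
    have h7 := Nat.lt_floor_add_one (2 * (k.length : ℝ) * accProb (mix A B) c)
    set F : ℝ := (⌊2 * (k.length : ℝ) * accProb (mix A B) c⌋₊ : ℝ) with hF
    have e1 : accProb (mix A B) c - F / (2 * k.length) =
        (2 * (k.length : ℝ) * accProb (mix A B) c - F) / (2 * k.length) := by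
      field_simp
    have e2 : (1 : ℝ) / k.length = 2 / (2 * k.length) := by
      field_simp
    rw [e1, abs_div, abs_of_pos (by positivity : (0 : ℝ) < 2 * k.length), e2]
    gcongr
    rw [abs_le]
    constructor <;> linarith
  · have h1 : nd' g (cut B (P.eval x.length + 1)) x = nd (cut B (P.eval x.length + 1)) x := by
      simp only [hnd', hlook x, if_neg hxE]
    rw [h1]
    obtain ⟨h2, h3⟩ := hmain (cut B (P.eval x.length + 1)) x c k r hx hk hr
    rw [h2 A _ hsl, List.tail_cons, List.length_replicate]
    have h4 := h3 A (fun hc => hxE ((hEm x).2 hc))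
    rw [acc_cut A B c _ (fun q' k' hq => by
      have := s3 q' k' hq
      rw [hPe]
      omega)] at h4
    exact h4

end Pool.Agent.TH682.WC
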