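import Pool.Agent.TH682.WC.Core2

/-!
# The parameters of the adaptive simulation
-/

set_option autoImplicit false
set_option linter.unusedSectionVars false

namespace Pool.Agent.TH682.WC

open Finset Pool.Agent.H722R2.AA Pool.Agent.H746R2.AA Pool.Agent.H703R2.AA Pool.Agent.H703R2.AA.Pr
open Pool.Agent.W938.CQ Pool.Agent.W938.QM

/-- An auxiliary number. -/
def DD (T k : ℕ) : ℕ := 144 * k * 4 ^ T * (T + 1)

/-- The base of the number of the questions. -/
def KK (T k L q M : ℕ) : ℕ := 8 * (T + 1) * L * (L * (q + 1) + M) * DD T k ^ 4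

/-- The number of the questions. -/
def NQ (T k L q M : ℕ) : ℕ := 10368 * T * L ^ 2 * k ^ 2 * 16 ^ T * KK T k L q M ^ T

variable {n : ℕ}

lemma sum_four (Δ : ℝ) (T : ℕ) : ∀ j : ℕ, (hΔ : 0 ≤ Δ) →
    3 * ∑ t ∈ range j, Δ * 4 ^ t / 4 ^ T ≤ Δ * 4 ^ j / 4 ^ T
  | 0, hΔ => by simp; positivity
  | j + 1, hΔ => by
    rw [Finset.sum_range_succ, pow_succ]
    have := sum_four Δ T j hΔ
    have e : Δ * (4 ^ j * 4) / 4 ^ T = 4 * (Δ * 4 ^ j / 4 ^ T) := by ring
    rw [e]
    linarith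

lemma sum_geo (K : ℝ) (hK : 2 ≤ K) (T : ℕ) : ∀ j : ℕ, j ≤ T →
    ∑ t ∈ range j, 1 / K ^ (T - t) ≤ 2 / (K ^ (T - j) * K)
  | 0, _ => by simp; positivity
  | j + 1, hj => by
    rw [Finset.sum_range_succ]
    have h0 := sum_geo K hK T j (by omega)
    have e : T - j = (T - (j + 1)) + 1 := by omega
    rw [e, pow_succ] at h0 ⊢
    set X := K ^ (T - (j + 1)) with hX
    have hX0 : 0 < X := by positivity
    have hK0 : 0 < K := by linarith
    have h1 : 2 / (X * K * K) ≤ 1 / (X * K) := by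
      rw [div_le_div_iff₀ (by positivity) (by positivity)]
      nlinarith [mul_pos hX0 hK0]
    have h2 : 2 / (X * K) = 1 / (X * K) + 1 / (X * K) := by ring
    rw [h2]
    linarith

lemma s2_aux (j L X : ℝ) (_ : 0 ≤ j) (hL : 0 < L) (hX : 0 < X) :
    j * L * (2 / X) ≤ 2 * (j + 1) * L / X := by
  rw [mul_div_assoc']
  refine div_le_div_of_nonneg_right ?_ hX.le
  nlinarith

theorem err_le {T : ℕ} (Q : Sys n T) (k L q M : ℕ) (hk : 1 ≤ k) (hL : 1 ≤ L) (hQL : Q.L = L)
    (hM : 1 ≤ M) (hn : n + 1 ≤ 2 ^ (q + 1)) :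
    ∃ τ : ℕ → ℝ, (∀ y, (K Q τ T y).card ≤ NQ T k L q M) ∧
      ∀ mid α β : ℝ, √mid + 1 / (12 * k) ≤ √α → √β + 1 / (12 * k) ≤ √mid →
        Pb (Er Q τ mid α β) ≤ 2 * (T + 1) * Real.exp (-M) := by
  have hk' : (1 : ℝ) ≤ k := by exact_mod_cast hk
  have hk0 : (0 : ℝ) < k := by linarith
  have hL' : (1 : ℝ) ≤ L := by exact_mod_cast hL
  have hL0 : (0 : ℝ) < L := by linarith
  have hM' : (1 : ℝ) ≤ M := by exact_mod_cast hM
  have hT0 : (0 : ℝ) ≤ T := Nat.cast_nonneg T
  set Δ : ℝ := 1 / (12 * k) with hΔ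
  have hΔ0 : 0 < Δ := by positivity
  set D : ℝ := (DD T k : ℝ) with hD
  have hDe : D = 144 * k * 4 ^ T * (T + 1) := by
    rw [hD, DD]
    push_cast
    ring
  have hD1 : 1 ≤ D := by
    rw [hDe]
    have h4 : (1 : ℝ) ≤ 4 ^ T := one_le_pow₀ (by norm_num)
    have h5 : (1 : ℝ) ≤ 144 * k := by linarith
    have h6 : (1 : ℝ) ≤ 144 * k * 4 ^ T := one_le_mul_of_one_le_of_one_le h5 h4
    exact one_le_mul_of_one_le_of_one_le h6 (by linarith)
  set KR : ℝ := (KK T k L q M : ℝ) with hKR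
  have hKe : KR = 8 * (T + 1) * L * (L * (q + 1) + M) * D ^ 4 := by
    rw [hKR, KK]
    push_cast
    ring
  have hq0 : (0 : ℝ) ≤ q := Nat.cast_nonneg q
  have hLq : 1 ≤ (L : ℝ) * (q + 1) + M := by
    have : 0 ≤ (L : ℝ) * (q + 1) := by positivity
    linarith
  have hK2 : 2 ≤ KR := by
    rw [hKe]
    have h1 : (1 : ℝ) ≤ (T + 1) * L := one_le_mul_of_one_le_of_one_le (by linarith) hL'
    have h2 : (1 : ℝ) ≤ (T + 1) * L * (L * (q + 1) + M) := one_le_mul_of_one_le_of_one_le h1 hLq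
    have h3 : (1 : ℝ) ≤ (T + 1) * L * (L * (q + 1) + M) * D ^ 4 :=
      one_le_mul_of_one_le_of_one_le h2 (one_le_pow₀ hD1)
    nlinarith
  have hK0 : 0 < KR := by linarith
  set a : ℕ → ℝ := fun t => Δ * 4 ^ t / 4 ^ T with ha
  have ha0 : ∀ t, 0 < a t := fun t => by simp only [ha]; positivity
  set θ : ℕ → ℝ := fun t => 1 / KR ^ (T - t) with hθ
  have hθ0 : ∀ t, 0 < θ t := fun t => by simp only [hθ]; positivity
  set u : ℕ → ℕ := fun t => L * KK T k L q M ^ (T - t) with hu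
  have hu' : ∀ t, (u t : ℝ) = L * KR ^ (T - t) := by
    intro t
    simp only [hu]
    push_cast
    rw [hKR]
  have hu0 : ∀ t, (0 : ℝ) < u t := fun t => by rw [hu']; positivity
  set ω : ℕ → ℝ := fun t => (a t / (12 * (t + 1))) ^ 2 with hω
  have hω0 : ∀ t, 0 ≤ ω t := fun t => by simp only [hω]; positivity
  have hsω : ∀ t, √(ω t) = a t / (12 * (t + 1)) := by
    intro t
    simp only [hω]
    refine Real.sqrt_sq ?_
    have := ha0 t
    positivity
  set s2 : ℕ → ℝ := fun t => 2 * (t + 1) * L / (KR ^ (T - t) * KR) with hs2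
  have hs20 : ∀ t, 0 < s2 t := fun t => by simp only [hs2]; positivity
  set τ : ℕ → ℝ := fun t => a t ^ 2 / (72 * u t) with hτ
  have hτ0 : ∀ t, 0 < τ t := fun t => by
    simp only [hτ]
    have := hu0 t
    have := ha0 t
    positivity
  have hsu : ∀ t, √(2 * u t * τ t) = a t / 6 := by
    intro t
    have e : 2 * u t * τ t = (a t / 6) ^ 2 := by
      simp only [hτ]
      have := (hu0 t).ne'
      field_simp
      ring
    rw [e]
    refine Real.sqrt_sq ?_
    have := ha0 t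
    positivity
  have hj0 : ∀ j : ℕ, 2 * (j : ℝ) * √(ω j) ≤ a j / 6 := by
    intro j
    rw [hsω]
    have h1 : (0 : ℝ) < 12 * (j + 1) := by positivity
    rw [mul_div_assoc', div_le_div_iff₀ h1 (by norm_num)]
    have := ha0 j
    nlinarith [Nat.cast_nonneg (α := ℝ) j]
  have hsum : ∀ j, 3 * ∑ t ∈ range j, a t ≤ a j := fun j => sum_four Δ T j hΔ0.le
  refine ⟨τ, fun y => ?_, fun mid α β h1 h2 => ?_⟩
  · have h1 := card_K Q τ hτ0 T y
    have h2 : ∀ t ∈ range T, Q.L / τ t ≤ 10368 * L ^ 2 * k ^ 2 * 16 ^ T * KR ^ T := by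
      intro t ht
      rw [mem_range] at ht
      rw [hQL]
      have h3 : Δ / 4 ^ T ≤ a t := by
        simp only [ha]
        gcongr
        exact le_mul_of_one_le_right hΔ0.le (one_le_pow₀ (by norm_num))
      have h4 : (Δ / 4 ^ T) ^ 2 ≤ a t ^ 2 := pow_le_pow_left₀ (by positivity) h3 2
      have h5 : (u t : ℝ) ≤ L * KR ^ T := by
        rw [hu']
        gcongr
        · linarith
        · omega
      have h6 : (L : ℝ) / τ t = 72 * L * u t / a t ^ 2 := by
        simp only [hτ]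
        have := (hu0 t).ne'
        have := (ha0 t).ne'
        field_simp
      rw [h6]
      calc 72 * (L : ℝ) * u t / a t ^ 2 ≤ 72 * L * (L * KR ^ T) / (Δ / 4 ^ T) ^ 2 := by gcongr
        _ = 10368 * L ^ 2 * k ^ 2 * 16 ^ T * KR ^ T := by
            rw [hΔ]
            have e : (16 : ℝ) ^ T = 4 ^ T * 4 ^ T := by rw [← mul_pow]; norm_num
            rw [e]
            field_simp
            norm_num
    have h3 := h1.trans (Finset.sum_le_sum h2)
    rw [Finset.sum_const, card_range, nsmul_eq_mul] at h3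
    have h4 : ((NQ T k L q M : ℕ) : ℝ) = T * (10368 * L ^ 2 * k ^ 2 * 16 ^ T * KR ^ T) := by
      unfold NQ
      push_cast
      rw [hKR]
      ring
    rw [← h4] at h3
    exact_mod_cast h3
  · have hlog : ∀ j : ℕ, ((n : ℝ) + 1) ^ u j ≤ Real.exp (u j * (q + 1)) := by
      intro j
      have h3 : ((n : ℝ) + 1) ≤ Real.exp (q + 1) := by
        have h4 : ((n : ℝ) + 1) ≤ 2 ^ (q + 1) := by exact_mod_cast hn
        have h5 : (2 : ℝ) ^ (q + 1) ≤ Real.exp 1 ^ (q + 1) := by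
          have h6 : (2 : ℝ) ≤ Real.exp 1 := by
            have := Real.add_one_le_exp (1 : ℝ)
            linarith
          gcongr
        have h6 : Real.exp 1 ^ (q + 1) = Real.exp (q + 1) := by
          rw [← Real.exp_nat_mul]
          push_cast
          ring_nf
        linarith
      calc ((n : ℝ) + 1) ^ u j ≤ Real.exp (q + 1) ^ u j := by gcongr
        _ = Real.exp (u j * (q + 1)) := by rw [← Real.exp_nat_mul]
    have hexp : ∀ j ≤ T, (u j : ℝ) * (q + 1) + M ≤ ω j ^ 2 / (4 * s2 j) := by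
      intro j hj
      have hX : (1 : ℝ) ≤ KR ^ (T - j) := one_le_pow₀ (by linarith)
      have hjT : (j : ℝ) ≤ T := by exact_mod_cast hj
      have h3 : 1 / D ≤ a j / (12 * (j + 1)) := by
        have h4 : Δ / 4 ^ T ≤ a j := by
          simp only [ha]
          gcongr
          exact le_mul_of_one_le_right hΔ0.le (one_le_pow₀ (by norm_num))
        calc 1 / D = (Δ / 4 ^ T) / (12 * (T + 1)) := by
              rw [hDe, hΔ]
              field_simp
              norm_num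
          _ ≤ a j / (12 * (j + 1)) := by gcongr
      have h4 : (1 / D) ^ 4 ≤ ω j ^ 2 := by
        have h5 := pow_le_pow_left₀ (by positivity) h3 4
        refine h5.trans (le_of_eq ?_)
        simp only [hω]
        ring
      have h5 : 4 * s2 j ≤ 8 * (T + 1) * L / (KR ^ (T - j) * KR) := by
        simp only [hs2]
        rw [mul_div_assoc']
        refine div_le_div_of_nonneg_right ?_ (by positivity)
        nlinarith
      have h6 : (1 / D) ^ 4 / (8 * (T + 1) * L / (KR ^ (T - j) * KR)) ≤ ω j ^ 2 / (4 * s2 j) := by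
        have := hs20 j
        gcongr
      refine le_trans ?_ h6
      have h7 : (1 / D) ^ 4 / (8 * (T + 1) * L / (KR ^ (T - j) * KR)) =
          KR ^ (T - j) * (L * (q + 1) + M) := by
        have hD0 : D ≠ 0 := by positivity
        have e1 : (1 / D) ^ 4 / (8 * (T + 1) * L / (KR ^ (T - j) * KR)) =
            KR ^ (T - j) * (KR / (8 * (T + 1) * L * D ^ 4)) := by
          field_simp
        have e2 : KR / (8 * (T + 1) * L * D ^ 4) = L * (q + 1) + M := by
          rw [hKe]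
          field_simp
        rw [e1, e2]
      rw [h7, hu']
      nlinarith [mul_nonneg (sub_nonneg.2 hX) (by linarith : (0 : ℝ) ≤ M)]
    have e1 : ∀ j < T, Q.L ≤ u j * θ j := by
      intro j _
      rw [hQL, hu']
      simp only [hθ]
      have h3 : KR ^ (T - j) ≠ 0 := by positivity
      have h4 : (L : ℝ) * KR ^ (T - j) * (1 / KR ^ (T - j)) = L := by
        field_simp
      rw [h4]
    have e2 : ∀ j < T, √(2 * u j * τ j) < a j := by
      intro j _
      rw [hsu]
      have := ha0 j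
      linarith
    have e3 : ∀ j ≤ T, (j : ℝ) * Q.L * ∑ t ∈ range j, θ t ≤ s2 j := by
      intro j hj
      have h3 := sum_geo KR hK2 T j hj
      rw [hQL]
      have h4 : (j : ℝ) * L * ∑ t ∈ range j, θ t ≤ j * L * (2 / (KR ^ (T - j) * KR)) :=
        mul_le_mul_of_nonneg_left h3 (by positivity)
      exact h4.trans (s2_aux _ _ _ (Nat.cast_nonneg j) hL0 (mul_pos (pow_pos hK0 _) hK0))
    have e4 : ∀ j < T, √(2 * u j * τ j) + 2 * ∑ t ∈ range j, a t + 2 * j * √(ω j) ≤ a j := by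
      intro j _
      rw [hsu]
      have h3 := hj0 j
      have h4 := hsum j
      linarith
    have e5 : 2 * ∑ t ∈ range T, a t + 2 * T * √(ω T) ≤ Δ := by
      have h3 := hj0 T
      have h4 := hsum T
      have h5 : a T = Δ := by
        have h6 : a T = Δ * 4 ^ T / 4 ^ T := rfl
        rw [h6]
        field_simp
      rw [h5] at h3 h4
      linarith
    have herr := error Q τ hθ0 ha0 hτ0 hω0 hs20 e1 e2 e3 e4 mid α β Δ hΔ0 h1 h2 e5
    refine herr.trans ?_
    have h3 : ∀ j ∈ range T, ((n : ℝ) + 1) ^ u j * (2 * Real.exp (-(ω j ^ 2 / (4 * s2 j)))) ≤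
        2 * Real.exp (-M) := by
      intro j hj
      rw [mem_range] at hj
      have h4 := hexp j hj.le
      calc ((n : ℝ) + 1) ^ u j * (2 * Real.exp (-(ω j ^ 2 / (4 * s2 j))))
          ≤ Real.exp (u j * (q + 1)) * (2 * Real.exp (-(ω j ^ 2 / (4 * s2 j)))) := by
            gcongr
            exact hlog j
        _ = 2 * Real.exp (u j * (q + 1) + -(ω j ^ 2 / (4 * s2 j))) := by
            rw [Real.exp_add]
            ring
        _ ≤ 2 * Real.exp (-M) := by
            gcongr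
            linarith
    have h4 : 2 * Real.exp (-(ω T ^ 2 / (4 * s2 T))) ≤ 2 * Real.exp (-M) := by
      gcongr
      have h5 := hexp T le_rfl
      have h6 : 0 ≤ (u T : ℝ) * (q + 1) := by positivity
      linarith
    have h5 := Finset.sum_le_sum h3
    rw [Finset.sum_const, card_range, nsmul_eq_mul] at h5
    linarith

/-- Increments of the square root. -/
lemma sqrt_up {x d : ℝ} (hx : 0 ≤ x) (hx1 : x ≤ 1) (hd : 0 ≤ d) (hd1 : d ≤ 1) :
    √x + d / 3 ≤ √(x + d) := by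
  have h1 : √x ≤ 1 := Real.sqrt_le_one.2 hx1
  have h2 := Real.sq_sqrt hx
  have h0 := Real.sqrt_nonneg x
  refine Real.le_sqrt_of_sq_le ?_
  nlinarith [mul_nonneg hd h0]

lemma sqrt_down {x d : ℝ} (hx1 : x ≤ 1) (hd : 0 ≤ d) (hd1 : d ≤ x) :
    √(x - d) + d / 3 ≤ √x := by
  have h1 : √x ≤ 1 := Real.sqrt_le_one.2 hx1
  have h2 := Real.sq_sqrt (sub_nonneg.2 hd1)
  have h0 := Real.sqrt_nonneg (x - d)
  have h3 : √(x - d) ≤ 1 := Real.sqrt_le_one.2 (by linarith)
  refine Real.le_sqrt_of_sq_le ?_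
  nlinarith [mul_nonneg hd h0]

open Classical in
/-- The estimate: the number of the thresholds `i / (2 k)` which the acceptance probability seems to
exceed. -/
noncomputable def est {T : ℕ} (Q : Sys n T) (τ : ℕ → ℝ) (k : ℕ) (y : Fin n → ℤˣ) : ℕ :=
  ((range (2 * k)).filter fun i : ℕ => Dc Q τ (((i : ℝ) + 1) / (2 * k)) y).card

lemma est_congr {T : ℕ} (Q : Sys n T) (τ : ℕ → ℝ) (k : ℕ) {y y' : Fin n → ℤˣ}
    (h : ∀ i ∈ K Q τ T y, y' i = y i) : est Q τ k y' = est Q τ k y := by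
  unfold est
  congr 1
  ext i
  simp only [Finset.mem_filter, Dc_congr Q τ h]

lemma est_le {T : ℕ} (Q : Sys n T) (τ : ℕ → ℝ) (k : ℕ) (y : Fin n → ℤˣ) : est Q τ k y ≤ 2 * k := by
  classical
  unfold est
  refine (Finset.card_filter_le _ _).trans ?_
  rw [card_range]

lemma est_good {T : ℕ} (Q : Sys n T) (τ : ℕ → ℝ) (k : ℕ) (hk : 1 ≤ k) (y : Fin n → ℤˣ)
    (hf0 : 0 ≤ Q.f y) (hf1 : Q.f y ≤ 1)
    (h : ∀ i < 2 * k, ¬ Er Q τ (((i : ℝ) + 1) / (2 * k)) (((i : ℝ) + 1) / (2 * k) + 1 / (4 * k))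
      (((i : ℝ) + 1) / (2 * k) - 1 / (4 * k)) y) :
    |Q.f y - est Q τ k y / (2 * k)| ≤ 1 / k := by
  classical
  have hk' : (1 : ℝ) ≤ k := by exact_mod_cast hk
  have hk0 : (0 : ℝ) < k := by linarith
  unfold Er at h
  set F := (range (2 * k)).filter fun i : ℕ => Dc Q τ (((i : ℝ) + 1) / (2 * k)) y with hF
  have h1 : ∀ i : ℕ, i < 2 * k → ((i : ℝ) + 1) / (2 * k) + 1 / (4 * k) ≤ Q.f y → i ∈ F := by
    intro i hi h2
    by_contra hc
    refine h i hi (Or.inl ⟨h2, fun h3 => hc ?_⟩)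
    exact Finset.mem_filter.2 ⟨mem_range.2 hi, h3⟩
  have h2 : ∀ i ∈ F, ((i : ℝ) + 1) / (2 * k) - 1 / (4 * k) < Q.f y := by
    intro i hi
    rw [hF, Finset.mem_filter, mem_range] at hi
    by_contra hc
    exact h i hi.1 (Or.inr ⟨not_lt.1 hc, hi.2⟩)
  have e : est Q τ k y = F.card := rfl
  rw [e]
  -- upper bound of the count
  have hup : (F.card : ℝ) ≤ 2 * k * Q.f y + 1 / 2 := by
    rcases F.eq_empty_or_nonempty with h3 | h3
    · rw [h3]
      simp only [Finset.card_empty, Nat.cast_zero]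
      positivity
    · have h4 := F.max'_mem h3
      set m := F.max' h3 with hm
      have h5 : F ⊆ range (m + 1) := by
        intro i hi
        rw [mem_range]
        exact Nat.lt_succ_of_le (F.le_max' i hi)
      have h6 := Finset.card_le_card h5
      rw [card_range] at h6
      have h7 : (F.card : ℝ) ≤ (m : ℝ) + 1 := by exact_mod_cast h6
      have h8 := h2 m h4
      have e8 : ((m : ℝ) + 1) / (2 * k) - 1 / (4 * k) = ((m : ℝ) + 1 - 1 / 2) / (2 * k) := by
        field_simp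
        ring
      rw [e8, div_lt_iff₀ (by positivity)] at h8
      linarith
  -- lower bound
  have hlow : 2 * k * Q.f y - 3 / 2 ≤ (F.card : ℝ) := by
    set x : ℝ := 2 * k * Q.f y - 1 / 2 with hx
    have h3 : range ⌊x⌋₊ ⊆ F := by
      intro i hi
      rw [mem_range] at hi
      have h4 : ((i + 1 : ℕ) : ℝ) ≤ x := by
        refine (Nat.le_floor_iff' (Nat.succ_ne_zero i)).1 hi
      push_cast at h4
      have h5 : (i : ℝ) + 1 ≤ 2 * k - 1 / 2 := by
        have : 2 * (k : ℝ) * Q.f y ≤ 2 * k := mul_le_of_le_one_right (by positivity) hf1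
        linarith
      have h6 : i < 2 * k := by
        have : (i : ℝ) < ((2 * k : ℕ) : ℝ) := by
          push_cast
          linarith
        exact_mod_cast this
      refine h1 i h6 ?_
      have e8 : ((i : ℝ) + 1) / (2 * k) + 1 / (4 * k) = ((i : ℝ) + 1 + 1 / 2) / (2 * k) := by
        field_simp
        ring
      rw [e8, div_le_iff₀ (by positivity)]
      linarith
    have h4 := Finset.card_le_card h3
    rw [card_range] at h4
    have h5 : x - 1 < (⌊x⌋₊ : ℝ) := Nat.sub_one_lt_floor x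
    have h6 : ((⌊x⌋₊ : ℕ) : ℝ) ≤ (F.card : ℝ) := by exact_mod_cast h4
    linarith
  have e9 : Q.f y - (F.card : ℝ) / (2 * k) = (2 * k * Q.f y - F.card) / (2 * k) := by
    field_simp
  have e10 : (1 : ℝ) / k = 2 / (2 * k) := by
    field_simp
  rw [e9, abs_div, abs_of_pos (by positivity : (0 : ℝ) < 2 * k), e10]
  gcongr
  rw [abs_le]
  constructor <;> linarith

/-- The estimate is good with high probability. -/
theorem est_prob {T : ℕ} (Q : Sys n T) (k L q h : ℕ) (hk : 1 ≤ k) (hL : 1 ≤ L) (hQL : Q.L = L)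
    (hn : n + 1 ≤ 2 ^ (q + 1)) (hf0 : ∀ y, 0 ≤ Q.f y) (hf1 : ∀ y, Q.f y ≤ 1) :
    ∃ τ : ℕ → ℝ, (∀ y, (K Q τ T y).card ≤ NQ T k L q (h + k + T + 2)) ∧
      Pb (fun y => ¬ |Q.f y - est Q τ k y / (2 * k)| ≤ 1 / k) ≤ (1 / 2) ^ h := by
  classical
  obtain ⟨τ, h1, h2⟩ := err_le Q k L q (h + k + T + 2) hk hL hQL (by omega) hn
  refine ⟨τ, h1, ?_⟩
  have hk' : (1 : ℝ) ≤ k := by exact_mod_cast hk
  have hk0 : (0 : ℝ) < k := by linarith
  have h3 : Pb (fun y => ¬ |Q.f y - est Q τ k y / (2 * k)| ≤ 1 / k) ≤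
      ∑ i ∈ range (2 * k), Pb (Er Q τ (((i : ℝ) + 1) / (2 * k))
        (((i : ℝ) + 1) / (2 * k) + 1 / (4 * k)) (((i : ℝ) + 1) / (2 * k) - 1 / (4 * k))) := by
    unfold Pb
    rw [← Ex_sum]
    refine Ex_mono fun y => ?_
    by_cases hy : |Q.f y - est Q τ k y / (2 * k)| ≤ 1 / k
    · have e : ind (¬ |Q.f y - est Q τ k y / (2 * k)| ≤ 1 / k) = 0 := by
        unfold ind
        rw [if_neg (not_not.2 hy)]
      rw [e]
      exact Finset.sum_nonneg fun i _ => ind_nonneg _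
    · have e : ind (¬ |Q.f y - est Q τ k y / (2 * k)| ≤ 1 / k) = 1 := by
        unfold ind
        rw [if_pos hy]
      rw [e]
      have h4 : ∃ i < 2 * k, Er Q τ (((i : ℝ) + 1) / (2 * k))
          (((i : ℝ) + 1) / (2 * k) + 1 / (4 * k)) (((i : ℝ) + 1) / (2 * k) - 1 / (4 * k)) y := by
        by_contra hc
        push Not at hc
        exact hy (est_good Q τ k hk y (hf0 y) (hf1 y) hc)
      obtain ⟨i, hi, h5⟩ := h4
      have e2 : ind (Er Q τ (((i : ℝ) + 1) / (2 * k))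
          (((i : ℝ) + 1) / (2 * k) + 1 / (4 * k)) (((i : ℝ) + 1) / (2 * k) - 1 / (4 * k)) y) = 1 := by
        unfold ind
        rw [if_pos h5]
      refine le_trans (le_of_eq e2.symm) ?_
      exact Finset.single_le_sum (f := fun i : ℕ => ind (Er Q τ (((i : ℝ) + 1) / (2 * k))
          (((i : ℝ) + 1) / (2 * k) + 1 / (4 * k)) (((i : ℝ) + 1) / (2 * k) - 1 / (4 * k)) y))
        (fun i _ => ind_nonneg _) (mem_range.2 hi)
  refine h3.trans ?_
  have h4 : ∀ i ∈ range (2 * k), Pb (Er Q τ (((i : ℝ) + 1) / (2 * k))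
        (((i : ℝ) + 1) / (2 * k) + 1 / (4 * k)) (((i : ℝ) + 1) / (2 * k) - 1 / (4 * k))) ≤
      2 * (T + 1) * Real.exp (-((h + k + T + 2 : ℕ) : ℝ)) := by
    intro i hi
    rw [mem_range] at hi
    have hi' : (i : ℝ) + 1 ≤ 2 * k := by exact_mod_cast hi
    have hx1 : ((i : ℝ) + 1) / (2 * k) ≤ 1 := by
      rw [div_le_one (by positivity)]
      exact hi'
    have hx0 : 1 / (2 * k) ≤ ((i : ℝ) + 1) / (2 * k) := by
      gcongr
      linarith [Nat.cast_nonneg (α := ℝ) i]
    have e : (1 : ℝ) / (12 * k) = 1 / (4 * k) / 3 := by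
      field_simp
      norm_num
    have hd1 : (1 : ℝ) / (4 * k) ≤ 1 := by
      rw [div_le_one (by positivity)]
      linarith
    refine h2 _ _ _ ?_ ?_
    · rw [e]
      exact sqrt_up (by positivity) hx1 (by positivity) hd1
    · rw [e]
      refine sqrt_down hx1 (by positivity) (le_trans ?_ hx0)
      gcongr
      norm_num
  refine (Finset.sum_le_sum h4).trans ?_
  rw [Finset.sum_const, card_range, nsmul_eq_mul]
  have h5 : Real.exp (-((h + k + T + 2 : ℕ) : ℝ)) ≤ (1 / 2) ^ (h + k + T + 2) := by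
    have h6 : Real.exp (-((h + k + T + 2 : ℕ) : ℝ)) = Real.exp (-1) ^ (h + k + T + 2) := by
      rw [← Real.exp_nat_mul]
      ring_nf
    rw [h6]
    have h7 : Real.exp (-1) ≤ 1 / 2 := by
      rw [Real.exp_neg, one_div]
      have := Real.add_one_le_exp (1 : ℝ)
      exact inv_anti₀ (by norm_num) (by linarith)
    gcongr
  have h6 : ((k : ℝ)) ≤ 2 ^ k := by exact_mod_cast Nat.lt_two_pow_self.le
  have h7 : ((T : ℝ) + 1) ≤ 2 ^ T := by exact_mod_cast Nat.lt_two_pow_self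
  calc ((2 * k : ℕ) : ℝ) * (2 * (T + 1) * Real.exp (-((h + k + T + 2 : ℕ) : ℝ)))
      ≤ ((2 * k : ℕ) : ℝ) * (2 * (T + 1) * (1 / 2) ^ (h + k + T + 2)) := by gcongr
    _ = 4 * (k * (T + 1)) * (1 / 2) ^ (h + k + T + 2) := by push_cast; ring
    _ ≤ 4 * (2 ^ k * 2 ^ T) * (1 / 2) ^ (h + k + T + 2) := by gcongr
    _ = (1 / 2) ^ h := by
        rw [pow_add, pow_add, pow_add]
        have e1 : (2 : ℝ) ^ k * (1 / 2) ^ k = 1 := by rw [← mul_pow]; norm_num
        have e2 : (2 : ℝ) ^ T * (1 / 2) ^ T = 1 := by rw [← mul_pow]; norm_num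
        calc 4 * ((2 : ℝ) ^ k * 2 ^ T) * ((1 / 2) ^ h * (1 / 2) ^ k * (1 / 2) ^ T * (1 / 2) ^ 2)
            = (2 ^ k * (1 / 2) ^ k) * (2 ^ T * (1 / 2) ^ T) * (1 / 2) ^ h := by ring
          _ = (1 / 2) ^ h := by rw [e1, e2]; ring

end Pool.Agent.TH682.WC
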