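import Pool.Agent.TH682.WC.Step
import Pool.Agent.W938.QX.NPv
import Pool.Agent.H620R2.GaugeR.R1

/-!
# The simulation of adaptive procedures
-/

set_option autoImplicit false
set_option linter.unusedSectionVars false

namespace Pool.Agent.TH682.WC

open Pool.Agent.NPC Pool.Agent.H620R2.Gauge
open Pool.Agent.W938.QX (Ev mem_Ev mix mix_even mix_odd enc enc_odd enc_long poly_rep)

lemma range_getD (l : List Bool) (n : ℕ) (h : l.length ≤ n) :
    (List.range n).map (fun i => l.getD i false) = l ++ List.replicate (n - l.length) false := by
  apply List.ext_getElem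
  · simp
    omega
  · intro i h1 h2
    simp only [List.getElem_map, List.getElem_range]
    by_cases hi : i < l.length
    · rw [List.getElem_append_left hi, List.getD_eq_getElem _ _ hi]
    · rw [List.getElem_append_right (not_lt.1 hi), List.getElem_replicate,
        List.getD_eq_default _ _ (not_lt.1 hi)]

lemma pairBits_append (u : List Bool) (a : List Bool) : pairBits u [] ++ a = pairBits u a := by
  unfold pairBits
  simp

lemma ustep_fst_len (s : List Bool × List Bool × Bool) :
    (ustep s).1.length ≤ s.1.length + 1 := by
  obtain ⟨a, l, b⟩ := s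
  unfold ustep
  cases b with
  | true => simp
  | false =>
    match l with
    | [] => simp
    | [true] => simp
    | true :: c :: l' => simp
    | false :: l' => simp

lemma ustep_iter_fst_len : ∀ (k : ℕ) (s : List Bool × List Bool × Bool),
    (ustep^[k] s).1.length ≤ s.1.length + k
  | 0, s => le_refl _
  | k + 1, s => by
    rw [Function.iterate_succ_apply]
    have h1 := ustep_iter_fst_len k (ustep s)
    have h2 := ustep_fst_len s
    omega

lemma unpair_fst_len (y : List Bool) : (unpair y).1.length ≤ y.length := by
  have h := ustep_iter_fst_len y.length ([], y, false)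
  unfold unpair
  rw [List.length_reverse]
  simpa using h

variable (A B : Oracle) (κ : List Bool) (P : Polynomial ℕ) (nd : List Bool → List Bool → List Bool)

theorem read (hlen : ∀ x w, (nd x w).length ≤ P.eval x.length)
    (hB : ∀ x w i, B (enc κ P (pairBits w (List.replicate i true)) x) =
      (pairBits (nd x w) []).getD i false) :
    IsFP (mix A B) (fun u => nd (unpair u).1 (unpair u).2) := by
  set n : List Bool → ℕ := fun u => 2 * P.eval (unpair u).1.length + 1 with hn
  set Q : List Bool → List (List Bool) := fun u => (List.range (n u)).map fun i =>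
    enc κ P (pairBits (unpair u).2 (List.replicate (if i ≤ n u then i else n u) true))
      (unpair u).1 with hQ
  set H : List Bool × List Bool → List Bool := fun z => (unpair z.2).1 with hH
  have un : UPoly n := by
    rw [hn]
    exact UPoly.add (UPoly.mul (UPoly.const 2) (UPoly.eval (UPoly.length
      (NPC.Poly.fst poly_unpair)) P)) (UPoly.const 1)
  have pQ : NPC.Poly Q := by
    refine NPC.Poly.map (l := fun u => List.range (n u)) (F := fun u i =>
      enc κ P (pairBits (unpair u).2 (List.replicate (if i ≤ n u then i else n u) true))
      (unpair u).1) (UPoly.range un) ?_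
    have e1 : NPC.Poly (fun z : List Bool × ℕ => (unpair z.1).1) :=
      NPC.Poly.fst (poly_unpair.comp (NPC.Poly.fst NPC.Poly.id))
    have e2 : NPC.Poly (fun z : List Bool × ℕ => (unpair z.1).2) :=
      NPC.Poly.snd (poly_unpair.comp (NPC.Poly.fst NPC.Poly.id))
    have un' : UPoly (fun z : List Bool × ℕ => n z.1) := UPoly.comp un (NPC.Poly.fst NPC.Poly.id)
    have u1 : UPoly (fun z : List Bool × ℕ => if z.2 ≤ n z.1 then z.2 else n z.1) := by
      refine UPoly.of_le (NPC.Poly.ite (NPC.Poly.decide_le (NPC.Poly.snd NPC.Poly.id) un'.toPoly)
        (NPC.Poly.snd NPC.Poly.id) un'.toPoly) un' fun z => ?_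
      split_ifs with h
      · exact h
      · exact le_rfl
    have e3 : NPC.Poly (fun z : List Bool × ℕ =>
        List.replicate (if z.2 ≤ n z.1 then z.2 else n z.1) true) := by
      refine (NPC.Poly.map (F := fun (_ : List Bool × ℕ) (_ : Unit) => true) u1
        (NPC.Poly.const true)).congr fun z => ?_
      rw [List.map_replicate]
    have e4 : NPC.Poly (fun z : List Bool × ℕ =>
        List.replicate (2 * P.eval (unpair z.1).1.length) true) := by
      have h1 : UPoly (fun z : List Bool × ℕ => 2 * P.eval (unpair z.1).1.length) :=
        UPoly.mul (UPoly.const 2) (UPoly.eval (UPoly.length e1) P)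
      refine (NPC.Poly.map (F := fun (_ : List Bool × ℕ) (_ : Unit) => true) h1
        (NPC.Poly.const true)).congr fun z => ?_
      rw [List.map_replicate]
    exact Pool.Agent.H622R2.poly_pairBits (NPC.Poly.const κ)
      (Pool.Agent.H622R2.poly_pairBits (Pool.Agent.H622R2.poly_pairBits e2 e3)
        (Pool.Agent.H622R2.poly_pairBits e1 e4))
  have pH : NPC.Poly H := NPC.Poly.fst (poly_unpair.comp (NPC.Poly.snd NPC.Poly.id))
  have key : (fun u => nd (unpair u).1 (unpair u).2) = fun u => H (u, (Q u).map (mix A B)) := by
    funext u
    have h1 : (Q u).map (mix A B) =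
        (List.range (n u)).map fun i => (pairBits (nd (unpair u).1 (unpair u).2) []).getD i false := by
      simp only [hQ, List.map_map]
      refine List.map_congr_left fun i hi => ?_
      rw [List.mem_range] at hi
      simp only [Function.comp]
      rw [mix_odd (enc_odd κ P _ _), if_pos hi.le, hB]
    have h2 : (pairBits (nd (unpair u).1 (unpair u).2) []).length ≤ n u := by
      rw [length_pairBits]
      have := hlen (unpair u).1 (unpair u).2
      simp only [hn, List.length_nil]
      omega
    simp only [hH]
    rw [h1, range_getD _ _ h2, pairBits_append, unpair_pairBits]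
  rw [key]
  exact IsFP.tt pQ pH

theorem step_fp (hlen : ∀ x w, (nd x w).length ≤ P.eval x.length)
    (heven : ∀ x w, (nd x w).head? = some false → (nd x w).tail.length % 2 = 0)
    (hB : ∀ x w i, B (enc κ P (pairBits w (List.replicate i true)) x) =
      (pairBits (nd x w) []).getD i false) :
    IsFP (mix A B) (fun u => pairBits (unpair u).1 (stp (nd (unpair u).1) A (unpair u).2)) := by
  set Q : List Bool → List (List Bool) := fun z => [(unpair z).1.tail] with hQ
  set H : List Bool × List Bool → List Bool := fun y =>
    if (unpair y.1).1.head? = some false then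
      pairBits (unpair (unpair y.1).2).1 (decide (y.2.head? = some true) :: (unpair (unpair y.1).2).2)
    else pairBits (unpair (unpair y.1).2).1 (unpair (unpair y.1).2).2 with hH
  have pQ : NPC.Poly Q := NPC.Poly.cons (NPC.Poly.tail (NPC.Poly.fst poly_unpair))
    (NPC.Poly.const [])
  have e0 : NPC.Poly (fun y : List Bool × List Bool => (unpair y.1).1) :=
    NPC.Poly.fst (poly_unpair.comp (NPC.Poly.fst NPC.Poly.id))
  have e1 : NPC.Poly (fun y : List Bool × List Bool => unpair (unpair y.1).2) :=
    poly_unpair.comp (NPC.Poly.snd (poly_unpair.comp (NPC.Poly.fst NPC.Poly.id)))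
  have e2 : NPC.Poly (fun y : List Bool × List Bool => decide (y.2.head? = some true)) :=
    NPC.Poly.decide_eq (NPC.Poly.head? (NPC.Poly.snd NPC.Poly.id)) (NPC.Poly.const _)
  have pH : NPC.Poly H := by
    refine NPC.Poly.ite (NPC.Poly.decide_eq (NPC.Poly.head? e0) (NPC.Poly.const _)) ?_ ?_
    · exact Pool.Agent.H622R2.poly_pairBits (NPC.Poly.fst e1)
        (NPC.Poly.cons e2 (NPC.Poly.snd e1))
    · exact Pool.Agent.H622R2.poly_pairBits (NPC.Poly.fst e1) (NPC.Poly.snd e1)
  have h1 := (IsFP.tt (A := mix A B) pQ pH).comp (IsFP.pair (read A B κ P nd hlen hB)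
    (IsFP.of_poly (F := fun u : List Bool => u) NPC.Poly.id))
  refine (congrArg (IsFP (mix A B)) ?_).mp h1
  funext u
  simp only [hQ, hH, List.map_cons, List.map_nil, unpair_pairBits, List.head?_cons,
    Option.some.injEq, Bool.decide_eq_true]
  unfold stp
  by_cases h : (nd (unpair u).1 (unpair u).2).head? = some false
  · rw [if_pos h, if_pos h, mix_even (heven _ _ h)]
  · rw [if_neg h, if_neg h]

theorem sim (hlen : ∀ x w, (nd x w).length ≤ P.eval x.length)
    (heven : ∀ x w, (nd x w).head? = some false → (nd x w).tail.length % 2 = 0)
    (hB : ∀ x w i, B (enc κ P (pairBits w (List.replicate i true)) x) =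
      (pairBits (nd x w) []).getD i false) :
    IsFP (mix A B) (fun z => nd (unpair z).1 ((stp (nd (unpair z).1) A)^[z.length] [])) := by
  set S : List Bool → List Bool := fun u =>
    pairBits (unpair u).1 (stp (nd (unpair u).1) A (unpair u).2) with hS
  have hit : ∀ (x : List Bool) (i : ℕ) (w : List Bool),
      S^[i] (pairBits x w) = pairBits x ((stp (nd x) A)^[i] w) := by
    intro x i
    induction i with
    | zero => intro w; rfl
    | succ i ih =>
      intro w
      rw [Function.iterate_succ_apply', Function.iterate_succ_apply', ih]
      simp only [hS, unpair_pairBits]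
  have hlw : ∀ (x : List Bool) (i : ℕ), ((stp (nd x) A)^[i] []).length ≤ i := by
    intro x i
    induction i with
    | zero => simp
    | succ i ih =>
      rw [Function.iterate_succ_apply']
      generalize (stp (nd x) A)^[i] [] = w at ih
      unfold stp
      split_ifs
      · rw [List.length_cons]
        omega
      · omega
  have hux : ∀ z : List Bool, (unpair z).1.length ≤ z.length := by
    intro z
    exact unpair_fst_len z
  have pg : NPC.Poly (fun z : List Bool => pairBits (unpair z).1 []) :=
    Pool.Agent.H622R2.poly_pairBits (NPC.Poly.fst poly_unpair) (NPC.Poly.const [])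
  have h1 := (step_fp A B κ P nd hlen heven hB).loop pg Polynomial.X
    (Polynomial.C 3 * Polynomial.X + 1) (fun z i hi => by
      change (S^[i] (pairBits (unpair z).1 [])).length ≤ _
      rw [hit, length_pairBits]
      have h2 := hlw (unpair z).1 i
      have h3 := hux z
      simp only [Polynomial.eval_X, Polynomial.eval_add, Polynomial.eval_mul, Polynomial.eval_C,
        Polynomial.eval_one] at hi ⊢
      omega)
  have h2 := (read A B κ P nd hlen hB).comp h1
  refine (congrArg (IsFP (mix A B)) ?_).mp h2
  funext z
  change nd (unpair (S^[Polynomial.eval z.length Polynomial.X] (pairBits (unpair z).1 []))).1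
    (unpair (S^[Polynomial.eval z.length Polynomial.X] (pairBits (unpair z).1 []))).2 = _
  rw [Polynomial.eval_X, hit, unpair_pairBits]

end Pool.Agent.TH682.WC
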