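import Pool.Agent.W938.QX.Dev

/-!
# From stages to single questions
-/

set_option autoImplicit false
set_option linter.unusedSectionVars false

namespace Pool.Agent.TH682.WC

open Pool.Agent.NPC Pool.Agent.H620R2.Gauge
open Pool.Agent.W938.QX (Ev mem_Ev)

/-- One step of an adaptive procedure: `nd w` is the next question (after the bit `0`) or the final
output (after the bit `1`) if `w` is the list of the answers, the most recent one first. -/
def stp (nd : List Bool → List Bool) (A : Oracle) (w : List Bool) : List Bool :=
  if (nd w).head? = some false then A (nd w).tail :: w else w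

/-- The oracle given by a list of questions and answers. -/
def ao (a : List (List Bool × Bool)) : Oracle := fun z => (a.lookup z).getD false

lemma ao_cons (z : List Bool) (b : Bool) (a : List (List Bool × Bool)) (y : List Bool) :
    ao ((z, b) :: a) y = if y = z then b else ao a y := by
  unfold ao
  rw [List.lookup_cons]
  by_cases h : y = z
  · subst h
    simp
  · rw [if_neg h]
    have : (y == z) = false := by simpa using h
    rw [this]

section

variable (Kf : ℕ → Oracle → Finset (List Bool)) (r : ℕ)

open Classical in
/-- The next question. -/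
noncomputable def nxt (a : List (List Bool × Bool)) : Option (List Bool) :=
  if h : ∃ j ≤ r, ¬ Kf j (ao a) ⊆ (a.map Prod.fst).toFinset then
    some (Finset.not_subset.1 (Nat.find_spec h).2).choose
  else none

lemma nxt_some (h0 : ∀ A, Kf 0 A = ∅)
    (h1 : ∀ j A A', (∀ z ∈ Kf j A, A' z = A z) → Kf (j + 1) A' = Kf (j + 1) A)
    (h2 : ∀ j A, Kf j A ⊆ Kf (j + 1) A) (A : Oracle) (a : List (List Bool × Bool))
    (ha : ∀ z ∈ a.map Prod.fst, A z = ao a z) {z : List Bool} (hz : nxt Kf r a = some z) :
    z ∈ Kf r A ∧ z ∉ a.map Prod.fst := by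
  classical
  unfold nxt at hz
  split_ifs at hz with h
  have hs := Nat.find_spec h
  have hc := (Finset.not_subset.1 hs.2).choose_spec
  have hmin := fun j (hj : j < Nat.find h) => Nat.find_min h hj
  rw [Option.some.injEq] at hz
  rw [hz, List.mem_toFinset] at hc
  clear hz
  generalize Nat.find h = j at hs hc hmin
  refine ⟨?_, hc.2⟩
  have hmono : ∀ i, i ≤ r → Kf i A ⊆ Kf r A := fun i hi =>
    monotone_nat_of_le_succ (f := fun j => Kf j A) (fun j => h2 j A) hi
  cases j with
  | zero =>
    rw [h0] at hc
    exact absurd hc.1 (Finset.notMem_empty _)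
  | succ j =>
    have h3 : Kf j (ao a) ⊆ (a.map Prod.fst).toFinset := by
      by_contra hcon
      exact hmin j (Nat.lt_succ_self j) ⟨by omega, hcon⟩
    have h4 : Kf (j + 1) A = Kf (j + 1) (ao a) := h1 j (ao a) A fun y hy =>
      ha y (List.mem_toFinset.1 (h3 hy))
    refine hmono (j + 1) hs.1 ?_
    rw [h4]
    exact hc.1

lemma nxt_none (h0 : ∀ A, Kf 0 A = ∅)
    (h1 : ∀ j A A', (∀ z ∈ Kf j A, A' z = A z) → Kf (j + 1) A' = Kf (j + 1) A)
    (A : Oracle) (a : List (List Bool × Bool))
    (ha : ∀ z ∈ a.map Prod.fst, A z = ao a z) (hz : nxt Kf r a = none) :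
    Kf r A = Kf r (ao a) ∧ ∀ z ∈ Kf r (ao a), A z = ao a z := by
  classical
  unfold nxt at hz
  split_ifs at hz with h
  have h3 : ∀ j ≤ r, Kf j (ao a) ⊆ (a.map Prod.fst).toFinset := by
    intro j hj
    by_contra hc
    exact h ⟨j, hj, hc⟩
  have h4 : ∀ j ≤ r, ∀ z ∈ Kf j (ao a), A z = ao a z := fun j hj z hz =>
    ha z (List.mem_toFinset.1 (h3 j hj hz))
  refine ⟨?_, h4 r le_rfl⟩
  cases r with
  | zero => rw [h0, h0]
  | succ r => exact h1 r (ao a) A (h4 r (Nat.le_succ r))

/-- The questions and the answers so far. -/
noncomputable def hist : List Bool → List (List Bool × Bool)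
  | [] => []
  | b :: w => match nxt Kf r (hist w) with
    | none => hist w
    | some z => (z, b) :: hist w

end

theorem stepper (Kf : ℕ → Oracle → Finset (List Bool)) (r : ℕ) (es : Oracle → ℕ) (q k D : ℕ)
    (h0 : ∀ A, Kf 0 A = ∅)
    (h1 : ∀ j A A', (∀ z ∈ Kf j A, A' z = A z) → Kf (j + 1) A' = Kf (j + 1) A)
    (h2 : ∀ j A, Kf j A ⊆ Kf (j + 1) A) (h3 : ∀ j A, Kf j A ⊆ Ev q)
    (h4 : ∀ A, (Kf r A).card ≤ D)
    (h5 : ∀ A A', (∀ z ∈ Kf r A, A' z = A z) → es A' = es A) (h6 : ∀ A, es A ≤ 2 * k) :
    ∃ nd : List Bool → List Bool, (∀ w, (nd w).length ≤ q + 2 * k + 1) ∧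
      (∀ w, (nd w).head? = some false → (nd w).tail.length % 2 = 0) ∧
      ∀ (A : Oracle) (s : ℕ), D ≤ s →
        nd ((stp nd A)^[s] []) = true :: List.replicate (es A) true := by
  classical
  set nd : List Bool → List Bool := fun w => match nxt Kf r (hist Kf r w) with
    | none => true :: List.replicate (es (ao (hist Kf r w))) true
    | some z => false :: z with hnd
  have hn : ∀ w, nxt Kf r (hist Kf r w) = none →
      nd w = true :: List.replicate (es (ao (hist Kf r w))) true := by
    intro w hw
    simp only [hnd, hw]
  have hs : ∀ w z, nxt Kf r (hist Kf r w) = some z → nd w = false :: z := by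
    intro w z hw
    simp only [hnd, hw]
  -- the questions are short and of even length
  have hE : ∀ (a : List (List Bool × Bool)) (z : List Bool), nxt Kf r a = some z → z ∈ Ev q := by
    intro a z hz
    unfold nxt at hz
    split_ifs at hz with h
    have hc := (Finset.not_subset.1 (Nat.find_spec h).2).choose_spec
    rw [Option.some.injEq] at hz
    rw [hz] at hc
    exact h3 _ _ hc.1
  refine ⟨nd, ?_, ?_, ?_⟩
  · intro w
    cases hw : nxt Kf r (hist Kf r w) with
    | none =>
      rw [hn w hw, List.length_cons, List.length_replicate]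
      have := h6 (ao (hist Kf r w))
      omega
    | some z =>
      rw [hs w z hw, List.length_cons]
      have := (mem_Ev.1 (hE _ _ hw)).1
      omega
  · intro w hh
    cases hw : nxt Kf r (hist Kf r w) with
    | none => rw [hn w hw] at hh; simp at hh
    | some z =>
      rw [hs w z hw, List.tail_cons]
      exact (mem_Ev.1 (hE _ _ hw)).2
  · intro A s hsD
    -- the invariant
    set W : ℕ → List Bool := fun i => (stp nd A)^[i] [] with hW
    have hW0 : W 0 = [] := rfl
    have hWs : ∀ i, W (i + 1) = stp nd A (W i) := fun i => Function.iterate_succ_apply' _ _ _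
    have hWn : ∀ i, nxt Kf r (hist Kf r (W i)) = none → W (i + 1) = W i := by
      intro i hi
      rw [hWs, stp, hn _ hi, if_neg (by simp)]
    have hWz : ∀ i z, nxt Kf r (hist Kf r (W i)) = some z → W (i + 1) = A z :: W i := by
      intro i z hi
      rw [hWs, stp, hs _ z hi, if_pos (by simp), List.tail_cons]
    have inv : ∀ i, (∀ z ∈ (hist Kf r (W i)).map Prod.fst, A z = ao (hist Kf r (W i)) z) ∧
        ((hist Kf r (W i)).map Prod.fst).Nodup ∧
        (∀ z ∈ (hist Kf r (W i)).map Prod.fst, z ∈ Kf r A) ∧
        (nxt Kf r (hist Kf r (W i)) = none ∨ (hist Kf r (W i)).length = i) := by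
      intro i
      induction i with
      | zero =>
        rw [hW0]
        refine ⟨by simp [hist], by simp [hist], by simp [hist], Or.inr (by simp [hist])⟩
      | succ i ih =>
        obtain ⟨i1, i2, i3, i4⟩ := ih
        cases hi : nxt Kf r (hist Kf r (W i)) with
        | none =>
          rw [hWn i hi]
          exact ⟨i1, i2, i3, Or.inl hi⟩
        | some z =>
          have hz := nxt_some Kf r h0 h1 h2 A _ i1 hi
          have e : hist Kf r (W (i + 1)) = (z, A z) :: hist Kf r (W i) := by
            rw [hWz i z hi, hist, hi]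
          rw [e]
          refine ⟨?_, ?_, ?_, Or.inr ?_⟩
          · intro y hy
            rw [ao_cons]
            by_cases hyz : y = z
            · rw [if_pos hyz, hyz]
            · rw [if_neg hyz]
              rw [List.map_cons, List.mem_cons] at hy
              exact i1 y (hy.resolve_left hyz)
          · rw [List.map_cons, List.nodup_cons]
            exact ⟨hz.2, i2⟩
          · intro y hy
            rw [List.map_cons, List.mem_cons] at hy
            rcases hy with rfl | hy
            · exact hz.1
            · exact i3 y hy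
          · rw [List.length_cons]
            rcases i4 with i4 | i4
            · rw [hi] at i4
              exact absurd i4 (by simp)
            · rw [i4]
    -- the procedure has stopped
    have hstop : nxt Kf r (hist Kf r (W s)) = none := by
      obtain ⟨i1, i2, i3, i4⟩ := inv s
      rcases i4 with i4 | i4
      · exact i4
      · by_contra hc
        obtain ⟨z, hz⟩ := Option.ne_none_iff_exists'.1 hc
        have h7 := nxt_some Kf r h0 h1 h2 A _ i1 hz
        have h8 : (z :: (hist Kf r (W s)).map Prod.fst).Nodup := List.nodup_cons.2 ⟨h7.2, i2⟩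
        have h9 : (z :: (hist Kf r (W s)).map Prod.fst).toFinset ⊆ Kf r A := by
          intro y hy
          rw [List.mem_toFinset, List.mem_cons] at hy
          rcases hy with rfl | hy
          · exact h7.1
          · exact i3 y hy
        have h10 := Finset.card_le_card h9
        rw [List.toFinset_card_of_nodup h8, List.length_cons, List.length_map, i4] at h10
        have := h4 A
        omega
    obtain ⟨i1, -, -, -⟩ := inv s
    obtain ⟨-, h8⟩ := nxt_none Kf r h0 h1 A _ i1 hstop
    show nd (W s) = _
    rw [hn _ hstop, h5 (ao (hist Kf r (W s))) A h8]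

end Pool.Agent.TH682.WC
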